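import Mathlib

set_option autoImplicit false

namespace Pool.Agent.MP_de3d19_pr.H76

open MeasureTheory

/-- Admissible charge law: a probability law on the reals with all exponential moments,
mean zero and second moment one. -/
def Admissible (μ : Measure ℝ) : Prop :=
  IsProbabilityMeasure μ ∧ (∀ δ : ℝ, Integrable (fun x => Real.exp (δ * x)) μ) ∧
    ∫ x, x ∂μ = 0 ∧ ∫ x, x ^ 2 ∂μ = 1

/-- `g*(l) = E[exp(δ Ω_l - β Ω_l ^ 2)]`, with `Ω_l` a sum of `l` independent charges of law `μ`. -/
noncomputable def gStar (μ : Measure ℝ) (δ β : ℝ) (l : ℕ) : ℝ :=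
  ∫ ω : Fin l → ℝ, Real.exp (δ * ∑ i, ω i - β * (∑ i, ω i) ^ 2) ∂(Measure.pi fun _ => μ)

/-- The unit step `± e_i` of `ℤ^d`. -/
def step {d : ℕ} (s : Fin d × Bool) : Fin d → ℤ := Pi.single s.1 (if s.2 then 1 else -1)

/-- The position `S_{i+1}` of the walk started at the origin with steps `w`. -/
def pos {d n : ℕ} (w : Fin n → Fin d × Bool) (i : Fin n) : Fin d → ℤ :=
  ∑ j ∈ Finset.Iic i, step (w j)

/-- The local time `ℓ_n(x)`: the number of times among `1, …, n` at which the walk is at `x`. -/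
def localTime {d n : ℕ} (w : Fin n → Fin d × Bool) (x : Fin d → ℤ) : ℕ :=
  (Finset.univ.filter (fun i => pos w i = x)).card

/-- The partition function: average over the `(2d)^n` equally likely step sequences. -/
noncomputable def Zstar (μ : Measure ℝ) (δ β : ℝ) (d n : ℕ) : ℝ :=
  (∑ w : Fin n → Fin d × Bool, ∏ᶠ x : Fin d → ℤ, gStar μ δ β (localTime w x)) / (2 * d : ℝ) ^ n

/-- The annealed excess free energy. -/
noncomputable def Fstar (μ : Measure ℝ) (δ β : ℝ) (d : ℕ) : EReal :=
  Filter.limsup (fun n : ℕ => ((Real.log (Zstar μ δ β d n) / n : ℝ) : EReal)) Filter.atTop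

end Pool.Agent.MP_de3d19_pr.H76
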