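import Mathlib

set_option autoImplicit false

namespace Pool.Agent.MP_de3d19_pr.H76

open Finset Equiv

variable {n : ℕ} {K : Type*} [DecidableEq K]

/-- occupation numbers of a sequence -/
def occ (j : Fin n → K) (k : K) : ℕ := (univ.filter (fun i => j i = k)).card

lemma occ_le (j : Fin n → K) (k : K) : occ j k ≤ n := by
  unfold occ
  calc _ ≤ (univ : Finset (Fin n)).card := card_filter_le _ _
    _ = n := by simp

lemma occ_eq_card (j : Fin n → K) (k : K) : occ j k = Fintype.card {i // j i = k} := by
  unfold occ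
  rw [Fintype.card_subtype]

lemma occ_comp_perm (j : Fin n → K) (σ : Perm (Fin n)) : occ (j ∘ σ) = occ j := by
  funext k
  rw [occ_eq_card, occ_eq_card]
  exact Fintype.card_congr (σ.subtypeEquiv (fun a => Iff.rfl))

lemma exists_perm_of_occ_eq {j j' : Fin n → K} (h : occ j' = occ j) :
    ∃ σ : Perm (Fin n), j ∘ σ = j' := by
  have e : ∀ c, {a // j' a = c} ≃ {b // j b = c} := fun c =>
    Fintype.equivOfCardEq (by rw [← occ_eq_card, ← occ_eq_card, h])
  exact ⟨Equiv.ofFiberEquiv e, funext fun a => Equiv.ofFiberEquiv_map e a⟩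

lemma prod_comp_eq_prod_pow [Fintype K] {M : Type*} [CommMonoid M] (j : Fin n → K) (f : K → M) :
    ∏ i, f (j i) = ∏ k, f k ^ occ j k := by
  rw [← Finset.prod_fiberwise (s := univ) (g := j) (f := fun i => f (j i))]
  apply Finset.prod_congr rfl
  intro k _
  rw [Finset.prod_congr rfl (g := fun _ => f k), Finset.prod_const]
  · rfl
  · intro i hi
    rw [(Finset.mem_filter.1 hi).2]

variable [Fintype K]

lemma card_transporter {j j' : Fin n → K} (h : occ j' = occ j) :
    (univ.filter (fun σ : Perm (Fin n) => j ∘ σ = j')).card = ∏ k, (occ j k).factorial := by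
  obtain ⟨τ, hτ⟩ := exists_perm_of_occ_eq h
  have h1 := DomMulAct.stabilizer_card j
  rw [Fintype.card_subtype] at h1
  simp only [← occ_eq_card] at h1
  rw [← h1]
  apply Finset.card_bij (fun σ _ => σ * τ⁻¹)
  · intro σ hσ
    simp only [mem_filter, mem_univ, true_and] at hσ ⊢
    funext i
    have := congrFun hσ (τ⁻¹ i)
    rw [← hτ] at this
    simpa using this
  · intro a _ b _ hab
    exact mul_right_cancel hab
  · intro σ hσ
    simp only [mem_filter, mem_univ, true_and] at hσ
    refine ⟨σ * τ, ?_, by simp⟩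
    simp only [mem_filter, mem_univ, true_and]
    rw [← hτ]
    funext i
    have := congrFun hσ (τ i)
    simpa using this

lemma sum_perm_comp (j : Fin n → K) (F : (Fin n → K) → ℝ) :
    ∑ σ : Perm (Fin n), F (j ∘ σ) =
      (∏ k, ((occ j k).factorial : ℝ)) * ∑ j' ∈ univ.filter (fun j' : Fin n → K => occ j' = occ j), F j' := by
  rw [← Finset.sum_fiberwise_of_maps_to (s := univ)
    (t := univ.filter (fun j' : Fin n → K => occ j' = occ j)) (g := fun σ : Perm (Fin n) => j ∘ σ)
    (fun σ _ => by simp [occ_comp_perm])]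
  rw [Finset.mul_sum]
  apply Finset.sum_congr rfl
  intro j' hj'
  simp only [mem_filter, mem_univ, true_and] at hj'
  rw [Finset.sum_congr rfl (g := fun _ => F j'), Finset.sum_const, card_transporter hj']
  · simp
  · intro σ hσ
    rw [(Finset.mem_filter.1 hσ).2]

lemma class_card (j : Fin n → K) :
    (∏ k, ((occ j k).factorial : ℝ)) * (univ.filter (fun j' : Fin n → K => occ j' = occ j)).card =
      n.factorial := by
  have := sum_perm_comp j (fun _ => 1)
  simp only [sum_const, card_univ, Fintype.card_perm, Fintype.card_fin, nsmul_eq_mul,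
    mul_one] at this
  exact this.symm

/-- exponential generating function bound -/
lemma egf (a : K → ℕ → ℝ) (ha : ∀ k i, 0 ≤ a k i) :
    ∑ j : Fin n → K, ∏ k, a k (occ j k) ≤
      n.factorial * ∏ k, ∑ i ∈ range (n + 1), a k i / i.factorial := by
  rw [Finset.prod_univ_sum, Finset.mul_sum]
  rw [← Finset.sum_fiberwise_of_maps_to (s := univ)
    (t := Fintype.piFinset (fun _ : K => range (n + 1))) (g := fun j : Fin n → K => occ j)
    (fun j _ => by
      rw [Fintype.mem_piFinset]
      intro k
      rw [mem_range]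
      exact Nat.lt_succ_of_le (occ_le j k))]
  apply Finset.sum_le_sum
  intro m _
  by_cases hm : ∃ j0 : Fin n → K, occ j0 = m
  · obtain ⟨j0, rfl⟩ := hm
    rw [Finset.sum_congr rfl (g := fun _ => ∏ k, a k (occ j0 k)), Finset.sum_const,
      ← class_card j0, Finset.prod_div_distrib, nsmul_eq_mul]
    · have : (0 : ℝ) < ∏ k, ((occ j0 k).factorial : ℝ) :=
        Finset.prod_pos (fun k _ => by exact_mod_cast Nat.factorial_pos _)
      apply le_of_eq
      field_simp
    · intro j hj
      rw [(Finset.mem_filter.1 hj).2]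
  · rw [Finset.sum_eq_zero]
    · exact mul_nonneg (Nat.cast_nonneg _)
        (Finset.prod_nonneg (fun k _ => div_nonneg (ha _ _) (Nat.cast_nonneg _)))
    · intro j hj
      exact absurd ⟨j, (Finset.mem_filter.1 hj).2⟩ hm

end Pool.Agent.MP_de3d19_pr.H76
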