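import Mathlib
import Pool.Agent.MP_de3d19_pr.H76.Orbit

set_option autoImplicit false
set_option linter.unusedSectionVars false

namespace Pool.Agent.MP_de3d19_pr.H76

open Finset Equiv

variable {n : ℕ} {K G : Type*} [Fintype K] [DecidableEq K] [Fintype G] [DecidableEq G]

lemma real_parseval (u : K → G → ℝ)
    (hu : ∀ k l, ∑ z, u k z * u l z = if k = l then 1 else 0) (a : K → ℝ) :
    ∑ z, (∑ k, a k * u k z) ^ 2 = ∑ k, a k ^ 2 := by
  have : ∀ z, (∑ k, a k * u k z) ^ 2 = ∑ k, ∑ l, a k * a l * (u k z * u l z) := by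
    intro z
    rw [sq, Finset.sum_mul_sum]
    apply Finset.sum_congr rfl; intro k _
    apply Finset.sum_congr rfl; intro l _
    ring
  simp only [this]
  rw [Finset.sum_comm]
  apply Finset.sum_congr rfl; intro k _
  rw [Finset.sum_comm]
  simp only [← Finset.mul_sum, hu]
  simp [sq]

lemma complex_parseval (u : K → G → ℝ)
    (hu : ∀ k l, ∑ z, u k z * u l z = if k = l then 1 else 0) (c : K → ℂ) :
    ∑ z, ‖∑ k, c k * (u k z : ℂ)‖ ^ 2 = ∑ k, ‖c k‖ ^ 2 := by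
  simp only [Complex.sq_norm, Complex.normSq_apply, Complex.re_sum, Complex.im_sum,
    Complex.mul_re, Complex.mul_im, Complex.ofReal_re, Complex.ofReal_im, mul_zero, sub_zero,
    zero_add, Finset.sum_add_distrib, ← sq]
  rw [real_parseval u hu (fun k => (c k).re), real_parseval u hu (fun k => (c k).im)]

lemma root_sum {N : ℕ} {ζ : ℂ} (hζ : IsPrimitiveRoot ζ N) {a b : ℕ} (ha : a < N) (hb : b < N) :
    ∑ t : Fin N, ζ ^ ((t : ℕ) * (a + (N - b))) = if a = b then (N : ℂ) else 0 := by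
  have e : ∀ t : Fin N, ζ ^ ((t : ℕ) * (a + (N - b))) = (ζ ^ (a + (N - b))) ^ (t : ℕ) := by
    intro t; rw [← pow_mul, mul_comm]
  simp only [e]
  rw [Fin.sum_univ_eq_sum_range (fun t => (ζ ^ (a + (N - b))) ^ t)]
  split_ifs with h
  · subst h
    rw [show a + (N - a) = N by omega, hζ.pow_eq_one]
    simp
  · have h1 : ζ ^ (a + (N - b)) ≠ 1 := by
      intro h1
      obtain ⟨c, hc⟩ := (hζ.pow_eq_one_iff_dvd _).1 h1
      have : c = 1 := by
        rcases c with _ | _ | c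
        · omega
        · rfl
        · exfalso
          have : N * (c + 1 + 1) = N * c + 2 * N := by ring
          omega
      subst this
      omega
    rw [geom_sum_eq h1, ← pow_mul, mul_comm, pow_mul, hζ.pow_eq_one]
    simp

/-- product of basis functions -/
def U (u : K → G → ℝ) (j : Fin n → K) (x : Fin n → G) : ℝ := ∏ i, u (j i) (x i)

/-- symmetrised product -/
def S (u : K → G → ℝ) (j : Fin n → K) (x : Fin n → G) : ℝ :=
  ∑ j' ∈ univ.filter (fun j' : Fin n → K => occ j' = occ j), U u j' x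

lemma extract (u : K → G → ℝ) (r : K → ℝ) {ζ : ℂ} (hζ : IsPrimitiveRoot ζ (n + 1))
    (j : Fin n → K) (x : Fin n → G) :
    ∑ α : K → Fin (n + 1), (∏ k, ζ ^ ((α k : ℕ) * (n + 1 - occ j k))) *
      ∏ i, ∑ k, ((r k : ℂ) * ζ ^ (α k : ℕ)) * (u k (x i) : ℂ) =
    ((n + 1 : ℕ) : ℂ) ^ Fintype.card K * (((∏ k, r k ^ occ j k) * S u j x : ℝ) : ℂ) := by
  have e1 : ∀ α : K → Fin (n + 1), ∏ i, ∑ k, ((r k : ℂ) * ζ ^ (α k : ℕ)) * (u k (x i) : ℂ) =
      ∑ j' : Fin n → K, (∏ k, ζ ^ ((α k : ℕ) * occ j' k)) *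
        (((∏ k, r k ^ occ j' k) * U u j' x : ℝ) : ℂ) := by
    intro α
    rw [Finset.prod_univ_sum, Fintype.piFinset_univ]
    apply Finset.sum_congr rfl
    intro j' _
    rw [Finset.prod_mul_distrib, prod_comp_eq_prod_pow j' (fun k => (r k : ℂ) * ζ ^ (α k : ℕ))]
    simp only [mul_pow, Finset.prod_mul_distrib, U, ← pow_mul]
    push_cast
    ring
  simp only [e1, Finset.mul_sum]
  rw [Finset.sum_comm]
  have e2 : ∀ j' : Fin n → K, ∑ α : K → Fin (n + 1), (∏ k, ζ ^ ((α k : ℕ) * (n + 1 - occ j k))) *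
      ((∏ k, ζ ^ ((α k : ℕ) * occ j' k)) * (((∏ k, r k ^ occ j' k) * U u j' x : ℝ) : ℂ)) =
      (if occ j' = occ j then ((n + 1 : ℕ) : ℂ) ^ Fintype.card K else 0) *
        (((∏ k, r k ^ occ j' k) * U u j' x : ℝ) : ℂ) := by
    intro j'
    simp only [← mul_assoc]
    rw [← Finset.sum_mul]
    congr 1
    have : ∀ α : K → Fin (n + 1), (∏ k, ζ ^ ((α k : ℕ) * (n + 1 - occ j k))) *
        (∏ k, ζ ^ ((α k : ℕ) * occ j' k)) =
        ∏ k, ζ ^ ((α k : ℕ) * (occ j' k + (n + 1 - occ j k))) := by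
      intro α
      rw [← Finset.prod_mul_distrib]
      apply Finset.prod_congr rfl
      intro k _
      rw [← pow_add]
      congr 1
      ring
    simp only [this]
    have h2 := Finset.prod_univ_sum (fun _ : K => (univ : Finset (Fin (n + 1))))
      (fun k (t : Fin (n + 1)) => ζ ^ ((t : ℕ) * (occ j' k + (n + 1 - occ j k))))
    rw [Fintype.piFinset_univ] at h2
    rw [← h2]
    have h3 : ∀ k, ∑ t : Fin (n + 1), ζ ^ ((t : ℕ) * (occ j' k + (n + 1 - occ j k))) =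
        if occ j' k = occ j k then ((n + 1 : ℕ) : ℂ) else 0 := fun k =>
      root_sum hζ (Nat.lt_succ_of_le (occ_le _ _)) (Nat.lt_succ_of_le (occ_le _ _))
    simp only [h3]
    split_ifs with h
    · simp [h]
    · obtain ⟨k, hk⟩ := Function.ne_iff.1 h
      exact Finset.prod_eq_zero (Finset.mem_univ k) (by simp [hk])
  simp only [e2]
  unfold S
  rw [Finset.mul_sum, Finset.sum_filter]
  push_cast
  rw [Finset.mul_sum]
  apply Finset.sum_congr rfl
  intro j' _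
  split_ifs with h
  · rw [h]; push_cast; rfl
  · simp

lemma sq_le_avg (u : K → G → ℝ) (r : K → ℝ) {ζ : ℂ} (hζ : IsPrimitiveRoot ζ (n + 1))
    (j : Fin n → K) (x : Fin n → G) :
    ((n + 1 : ℕ) : ℝ) ^ Fintype.card K * ((∏ k, r k ^ occ j k) * S u j x) ^ 2 ≤
    ∑ α : K → Fin (n + 1), ∏ i, ‖∑ k, ((r k : ℂ) * ζ ^ (α k : ℕ)) * (u k (x i) : ℂ)‖ ^ 2 := by
  have hn : ‖ζ‖ = 1 := hζ.norm'_eq_one (Nat.succ_ne_zero n)
  have h1 := congrArg norm (extract u r hζ j x)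
  rw [norm_mul, norm_pow, Complex.norm_natCast, Complex.norm_real] at h1
  have h2 := norm_sum_le (univ : Finset (K → Fin (n + 1)))
    (fun α => (∏ k, ζ ^ ((α k : ℕ) * (n + 1 - occ j k))) *
      ∏ i, ∑ k, ((r k : ℂ) * ζ ^ (α k : ℕ)) * (u k (x i) : ℂ))
  rw [h1] at h2
  simp only [norm_mul, norm_prod, norm_pow, hn, one_pow, Finset.prod_const_one, one_mul] at h2
  have h3 := sq_sum_le_card_mul_sum_sq (s := (univ : Finset (K → Fin (n + 1))))
    (f := fun α => ∏ i, ‖∑ k, ((r k : ℂ) * ζ ^ (α k : ℕ)) * (u k (x i) : ℂ)‖)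
  rw [card_univ, Fintype.card_fun, Fintype.card_fin] at h3
  push_cast at h3 h2 ⊢
  simp only [← Finset.prod_pow] at h3
  set A : ℝ := ((n : ℝ) + 1) ^ Fintype.card K with hA
  have hApos : 0 < A := by positivity
  set B : ℝ := (∏ k, r k ^ occ j k) * S u j x with hB
  have hB2 : (∏ k, ‖r k‖ ^ occ j k) * ‖S u j x‖ = |B| := by
    rw [hB, abs_mul, Finset.abs_prod]
    simp
  rw [hB2] at h2
  have h4 : (A * |B|) ^ 2 ≤ _ := (pow_le_pow_left₀ (by positivity) h2 2).trans h3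
  rw [mul_pow, sq_abs] at h4
  rw [sq A, mul_assoc] at h4
  exact le_of_mul_le_mul_left h4 hApos

lemma coherent (h : ℕ → ℝ) (hh : ∀ i, 0 ≤ h i)
    (hH : ∀ ρ : ℝ, 0 ≤ ρ → ∑ i ∈ range (n + 1), h i * ρ ^ i / i.factorial ≤ Real.exp ρ)
    (ρ : G → ℝ) (hρ : ∀ z, 0 ≤ ρ z) :
    ∑ x : Fin n → G, (∏ z, h (occ x z)) * ∏ i, ρ (x i) ≤ n.factorial * Real.exp (∑ z, ρ z) := by
  have e : ∀ x : Fin n → G, (∏ z, h (occ x z)) * ∏ i, ρ (x i) =
      ∏ z, (h (occ x z) * ρ z ^ occ x z) := by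
    intro x
    rw [prod_comp_eq_prod_pow x ρ, Finset.prod_mul_distrib]
  simp only [e]
  refine (egf (n := n) (fun z i => h i * ρ z ^ i)
    (fun z i => mul_nonneg (hh i) (pow_nonneg (hρ z) i))).trans ?_
  apply mul_le_mul_of_nonneg_left _ (Nat.cast_nonneg _)
  rw [Real.exp_sum]
  apply Finset.prod_le_prod
  · intro z _
    exact Finset.sum_nonneg (fun i _ => div_nonneg (mul_nonneg (hh i) (pow_nonneg (hρ z) i))
      (Nat.cast_nonneg _))
  · intro z _
    exact hH _ (hρ z)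

lemma class_bound (u : K → G → ℝ)
    (hu : ∀ k l, ∑ z, u k z * u l z = if k = l then 1 else 0)
    (h : ℕ → ℝ) (hh : ∀ i, 0 ≤ h i)
    (hH : ∀ ρ : ℝ, 0 ≤ ρ → ∑ i ∈ range (n + 1), h i * ρ ^ i / i.factorial ≤ Real.exp ρ)
    (j : Fin n → K) :
    (∏ k, (occ j k : ℝ) ^ occ j k) * ∑ x : Fin n → G, (∏ z, h (occ x z)) * S u j x ^ 2 ≤
      n.factorial * ∏ k, Real.exp (occ j k) := by
  have hζ := Complex.isPrimitiveRoot_exp (n + 1) (Nat.succ_ne_zero n)
  set ζ := Complex.exp (2 * Real.pi * Complex.I / ((n + 1 : ℕ) : ℂ)) with hζdef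
  have hn : ‖ζ‖ = 1 := hζ.norm'_eq_one (Nat.succ_ne_zero n)
  let r : K → ℝ := fun k => Real.sqrt (occ j k)
  have hr : (∏ k, r k ^ occ j k) ^ 2 = ∏ k, (occ j k : ℝ) ^ occ j k := by
    rw [← Finset.prod_pow]
    apply Finset.prod_congr rfl
    intro k _
    rw [← pow_mul, mul_comm, pow_mul, Real.sq_sqrt (Nat.cast_nonneg _)]
  set A : ℝ := ((n + 1 : ℕ) : ℝ) ^ Fintype.card K with hA
  have hApos : 0 < A := by positivity
  have hf : ∀ x : Fin n → G, 0 ≤ ∏ z, h (occ x z) := fun x =>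
    Finset.prod_nonneg (fun z _ => hh _)
  have h1 : A * ((∏ k, (occ j k : ℝ) ^ occ j k) *
      ∑ x : Fin n → G, (∏ z, h (occ x z)) * S u j x ^ 2) ≤
      ∑ x : Fin n → G, (∏ z, h (occ x z)) * ∑ α : K → Fin (n + 1),
        ∏ i, ‖∑ k, ((r k : ℂ) * ζ ^ (α k : ℕ)) * (u k (x i) : ℂ)‖ ^ 2 := by
    rw [Finset.mul_sum, Finset.mul_sum]
    apply Finset.sum_le_sum
    intro x _
    have := mul_le_mul_of_nonneg_left (sq_le_avg u r hζ j x) (hf x)
    rw [mul_pow, hr] at this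
    refine le_trans (le_of_eq ?_) this
    ring
  simp only [Finset.mul_sum] at h1
  rw [Finset.sum_comm] at h1
  have h2 : ∀ α : K → Fin (n + 1), ∑ x : Fin n → G, (∏ z, h (occ x z)) *
      ∏ i, ‖∑ k, ((r k : ℂ) * ζ ^ (α k : ℕ)) * (u k (x i) : ℂ)‖ ^ 2 ≤
      n.factorial * ∏ k, Real.exp (occ j k) := by
    intro α
    refine (coherent h hh hH (fun z => ‖∑ k, ((r k : ℂ) * ζ ^ (α k : ℕ)) * (u k z : ℂ)‖ ^ 2)
      (fun z => sq_nonneg _)).trans (le_of_eq ?_)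
    rw [complex_parseval u hu, ← Real.exp_sum]
    congr 2
    apply Finset.sum_congr rfl
    intro k _
    rw [norm_mul, norm_pow, hn, one_pow, mul_one, Complex.norm_real, Real.norm_eq_abs, sq_abs,
      Real.sq_sqrt (Nat.cast_nonneg _)]
  have h3 := h1.trans (Finset.sum_le_sum (fun α _ => h2 α))
  rw [Finset.sum_const, card_univ, Fintype.card_fun, Fintype.card_fin, nsmul_eq_mul] at h3
  rw [← Finset.mul_sum, ← Finset.mul_sum] at h3
  have e : (((n + 1) ^ Fintype.card K : ℕ) : ℝ) = A := by rw [hA]; push_cast; rfl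
  rw [e] at h3
  exact le_of_mul_le_mul_left h3 hApos

end Pool.Agent.MP_de3d19_pr.H76
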