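import Mathlib
import Pool.Agent.MP_de3d19_pr.H76.Phase

set_option autoImplicit false
set_option linter.unusedSectionVars false

namespace Pool.Agent.MP_de3d19_pr.H76

open Finset Equiv

variable {n : ℕ} {K G : Type*} [Fintype K] [DecidableEq K] [Fintype G] [DecidableEq G]

/-- weighted sum over sequences, with links given by a permutation -/
def T (h : ℕ → ℝ) (M : G → G → ℝ) (σ : Perm (Fin n)) : ℝ :=
  ∑ x : Fin n → G, (∏ z, h (occ x z)) * ∏ i, M (x i) (x (σ i))

lemma sum_comp_perm {A : Type*} [Fintype A] (τ : Perm (Fin n)) (F : (Fin n → A) → ℝ) :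
    ∑ x : Fin n → A, F (x ∘ τ) = ∑ x : Fin n → A, F x :=
  Fintype.sum_equiv (Equiv.arrowCongr τ.symm (Equiv.refl A)) _ _ (fun _ => rfl)

lemma S_comp_perm (u : K → G → ℝ) (j : Fin n → K) (x : Fin n → G) (σ : Perm (Fin n)) :
    S u (j ∘ σ) x = S u j x := by
  unfold S; rw [occ_comp_perm]

lemma sum_perm_links (u : K → G → ℝ) (j : Fin n → K) (x : Fin n → G) :
    ∑ σ : Perm (Fin n), ∏ i, u (j i) (x (σ i)) = (∏ k, ((occ j k).factorial : ℝ)) * S u j x := by
  have e : ∀ σ : Perm (Fin n), ∏ i, u (j i) (x (σ i)) = U u (j ∘ ⇑(σ⁻¹)) x := by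
    intro σ
    unfold U
    exact Fintype.prod_equiv σ _ _ (fun i => by simp)
  simp only [e]
  unfold S
  rw [← sum_perm_comp j (fun j' => U u j' x)]
  exact Fintype.sum_equiv (Equiv.inv _) _ _ (fun _ => rfl)

lemma symmetrise (u : K → G → ℝ) (x : Fin n → G) (a : (Fin n → K) → ℝ)
    (ha : ∀ j (σ : Perm (Fin n)), a (j ∘ σ) = a j) :
    n.factorial * ∑ j, a j * U u j x =
      ∑ j, a j * ((∏ k, ((occ j k).factorial : ℝ)) * S u j x) := by
  have e1 : (n.factorial : ℝ) * ∑ j, a j * U u j x =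
      ∑ σ : Perm (Fin n), ∑ j : Fin n → K, a (j ∘ σ) * U u (j ∘ σ) x := by
    rw [Finset.sum_congr rfl (fun σ _ => sum_comp_perm σ (fun j => a j * U u j x))]
    simp [Fintype.card_perm]
  rw [e1, Finset.sum_comm]
  apply Finset.sum_congr rfl
  intro j _
  simp only [ha]
  rw [← Finset.mul_sum, sum_perm_comp j (fun j' => U u j' x)]
  rfl

lemma perm_expand (u : K → G → ℝ) (lam : K → ℝ) (M : G → G → ℝ)
    (hM : ∀ x y, M x y = ∑ k, lam k * u k x * u k y) (x : Fin n → G) :
    n.factorial * ∑ σ : Perm (Fin n), ∏ i, M (x i) (x (σ i)) =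
      ∑ j : Fin n → K, (∏ k, lam k ^ occ j k) * (∏ k, ((occ j k).factorial : ℝ)) ^ 2 *
        S u j x ^ 2 := by
  have e1 : ∀ σ : Perm (Fin n), ∏ i, M (x i) (x (σ i)) =
      ∑ j : Fin n → K, (∏ k, lam k ^ occ j k) * U u j x * ∏ i, u (j i) (x (σ i)) := by
    intro σ
    simp only [hM]
    rw [Finset.prod_univ_sum, Fintype.piFinset_univ]
    apply Finset.sum_congr rfl
    intro j _
    rw [Finset.prod_mul_distrib, Finset.prod_mul_distrib, prod_comp_eq_prod_pow j lam]
    rfl
  simp only [e1]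
  rw [Finset.sum_comm]
  simp only [← Finset.mul_sum, sum_perm_links]
  have := symmetrise u x (fun j => (∏ k, lam k ^ occ j k) *
    ((∏ k, ((occ j k).factorial : ℝ)) * S u j x)) (fun j σ => by rw [occ_comp_perm, S_comp_perm])
  calc _ = n.factorial * ∑ j, ((∏ k, lam k ^ occ j k) *
      ((∏ k, ((occ j k).factorial : ℝ)) * S u j x)) * U u j x := by
        congr 1
        apply Finset.sum_congr rfl
        intro j _
        ring
    _ = _ := by
        rw [this]
        apply Finset.sum_congr rfl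
        intro j _
        ring

lemma perm_sum_bound (u : K → G → ℝ)
    (hu : ∀ k l, ∑ z, u k z * u l z = if k = l then 1 else 0)
    (lam : K → ℝ) (M : G → G → ℝ) (hM : ∀ x y, M x y = ∑ k, lam k * u k x * u k y)
    (h : ℕ → ℝ) (hh : ∀ i, 0 ≤ h i)
    (hH : ∀ ρ : ℝ, 0 ≤ ρ → ∑ i ∈ range (n + 1), h i * ρ ^ i / i.factorial ≤ Real.exp ρ) :
    ∑ σ : Perm (Fin n), T h M σ ≤ n.factorial *
      ∏ k, ∑ i ∈ range (n + 1), |lam k| ^ i * (i.factorial * Real.exp i / (i : ℝ) ^ i) := by
  have hn : (0 : ℝ) < n.factorial := by exact_mod_cast Nat.factorial_pos n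
  apply le_of_mul_le_mul_left _ hn
  have hf : ∀ x : Fin n → G, 0 ≤ ∏ z, h (occ x z) := fun x =>
    Finset.prod_nonneg (fun z _ => hh _)
  have e1 : (n.factorial : ℝ) * ∑ σ : Perm (Fin n), T h M σ =
      ∑ j : Fin n → K, (∏ k, lam k ^ occ j k) * (∏ k, ((occ j k).factorial : ℝ)) ^ 2 *
        ∑ x : Fin n → G, (∏ z, h (occ x z)) * S u j x ^ 2 := by
    unfold T
    rw [Finset.sum_comm]
    simp only [← Finset.mul_sum]
    rw [Finset.mul_sum]
    have : ∀ x : Fin n → G, (n.factorial : ℝ) * ((∏ z, h (occ x z)) *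
        ∑ σ : Perm (Fin n), ∏ i, M (x i) (x (σ i))) = ∑ j : Fin n → K,
        (∏ k, lam k ^ occ j k) * (∏ k, ((occ j k).factorial : ℝ)) ^ 2 *
          ((∏ z, h (occ x z)) * S u j x ^ 2) := by
      intro x
      rw [mul_left_comm, perm_expand u lam M hM x, Finset.mul_sum]
      apply Finset.sum_congr rfl
      intro j _
      ring
    simp only [this]
    rw [Finset.sum_comm]
    simp only [Finset.mul_sum]
  rw [e1]
  have e2 : ∀ j : Fin n → K, (∏ k, lam k ^ occ j k) * (∏ k, ((occ j k).factorial : ℝ)) ^ 2 *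
        ∑ x : Fin n → G, (∏ z, h (occ x z)) * S u j x ^ 2 ≤
      n.factorial * ∏ k, (|lam k| ^ occ j k * ((occ j k).factorial * Real.exp (occ j k) /
        (occ j k : ℝ) ^ occ j k) * (occ j k).factorial) := by
    intro j
    have hb := class_bound u hu h hh hH j
    set A := ∑ x : Fin n → G, (∏ z, h (occ x z)) * S u j x ^ 2 with hA
    have hA0 : 0 ≤ A := Finset.sum_nonneg (fun x _ => mul_nonneg (hf x) (sq_nonneg _))
    have hpos : 0 < ∏ k, (occ j k : ℝ) ^ occ j k := by
      apply Finset.prod_pos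
      intro k _
      rcases Nat.eq_zero_or_pos (occ j k) with h0 | h0
      · rw [h0]; simp
      · positivity
    have hA1 : A ≤ n.factorial * (∏ k, Real.exp (occ j k)) / ∏ k, (occ j k : ℝ) ^ occ j k := by
      rw [le_div_iff₀ hpos, mul_comm]; exact hb
    have hl : ∏ k, lam k ^ occ j k ≤ ∏ k, |lam k| ^ occ j k := by
      refine (le_abs_self _).trans (le_of_eq ?_)
      rw [Finset.abs_prod]
      simp
    calc _ ≤ (∏ k, |lam k| ^ occ j k) * (∏ k, ((occ j k).factorial : ℝ)) ^ 2 *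
        (n.factorial * (∏ k, Real.exp (occ j k)) / ∏ k, (occ j k : ℝ) ^ occ j k) := by
          apply mul_le_mul _ hA1 hA0 (by positivity)
          exact mul_le_mul_of_nonneg_right hl (sq_nonneg _)
      _ = _ := by
          simp only [Finset.prod_mul_distrib, Finset.prod_div_distrib]
          ring
  refine (Finset.sum_le_sum (fun j _ => e2 j)).trans ?_
  rw [← Finset.mul_sum]
  apply mul_le_mul_of_nonneg_left _ hn.le
  refine (egf (n := n) (fun k i => |lam k| ^ i * (i.factorial * Real.exp i / (i : ℝ) ^ i) *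
    i.factorial) (fun k i => by positivity)).trans (le_of_eq ?_)
  congr 1
  apply Finset.prod_congr rfl
  intro k _
  apply Finset.sum_congr rfl
  intro i _
  have : (0 : ℝ) < i.factorial := by exact_mod_cast Nat.factorial_pos i
  field_simp

lemma stirling_upper (i : ℕ) (hi : 0 < i) :
    (i.factorial : ℝ) * Real.exp i / (i : ℝ) ^ i ≤ Real.exp 1 * i := by
  obtain ⟨m, rfl⟩ : ∃ m, i = m + 1 := ⟨i - 1, by omega⟩
  have h := Stirling.stirlingSeq'_antitone (Nat.zero_le m)
  simp only [Function.comp, Nat.succ_eq_add_one, zero_add, Stirling.stirlingSeq_one] at h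
  unfold Stirling.stirlingSeq at h
  have hm : (1 : ℝ) ≤ ((m + 1 : ℕ) : ℝ) := by exact_mod_cast hi
  set y : ℝ := ((m + 1 : ℕ) : ℝ) with hy
  have hs : √(2 * y) ≤ √2 * y := by
    rw [Real.sqrt_mul (by norm_num)]
    apply mul_le_mul_of_nonneg_left _ (Real.sqrt_nonneg _)
    rw [Real.sqrt_le_left (by linarith)]
    nlinarith
  have h2 : (0 : ℝ) < √2 := by positivity
  have he : Real.exp y = Real.exp 1 ^ (m + 1) := by
    rw [← Real.exp_nat_mul, mul_one]
  rw [div_le_div_iff₀ (by positivity) h2, div_pow] at h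
  rw [div_le_iff₀ (by positivity), he]
  have hE : 0 < Real.exp 1 ^ (m + 1) := by positivity
  have hyp : 0 < y ^ (m + 1) := by positivity
  have h3 : ((m + 1).factorial : ℝ) * √2 ≤
      Real.exp 1 * (√2 * y * (y ^ (m + 1) / Real.exp 1 ^ (m + 1))) := by
    refine h.trans ?_
    gcongr
  have h4 : ((m + 1).factorial : ℝ) ≤ Real.exp 1 * (y * (y ^ (m + 1) / Real.exp 1 ^ (m + 1))) := by
    apply le_of_mul_le_mul_right _ h2
    refine h3.trans (le_of_eq ?_)
    ring
  calc _ ≤ Real.exp 1 * (y * (y ^ (m + 1) / Real.exp 1 ^ (m + 1))) * Real.exp 1 ^ (m + 1) := by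
        gcongr
    _ = _ := by field_simp

lemma mode_sum_le (x θ : ℝ) (hx : 0 ≤ x) (hxθ : x ≤ θ) (hθ : θ < 1) (N : ℕ) :
    ∑ i ∈ range (N + 1), x ^ i * (i.factorial * Real.exp i / (i : ℝ) ^ i) ≤
      Real.exp (Real.exp 1 / (1 - θ) ^ 2 * x) := by
  have hx1 : ‖x‖ < 1 := by rw [Real.norm_eq_abs, abs_of_nonneg hx]; linarith
  have hs := hasSum_coe_mul_geometric_of_norm_lt_one hx1
  have h1 : ∑ i ∈ range (N + 1), (i : ℝ) * x ^ i ≤ x / (1 - x) ^ 2 :=
    sum_le_hasSum _ (fun i _ => by positivity) hs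
  have h2 : x / (1 - x) ^ 2 ≤ x / (1 - θ) ^ 2 := by
    apply div_le_div_of_nonneg_left hx (by have : 0 < 1 - θ := by linarith
                                           positivity)
    apply pow_le_pow_left₀ (by linarith) (by linarith)
  rw [Finset.sum_range_succ'] at h1 ⊢
  have h3 : ∑ i ∈ range N, x ^ (i + 1) * ((i + 1).factorial * Real.exp ((i + 1 : ℕ) : ℝ) /
      ((i + 1 : ℕ) : ℝ) ^ (i + 1)) ≤ Real.exp 1 * ∑ i ∈ range N, ((i + 1 : ℕ) : ℝ) * x ^ (i + 1) := by
    rw [Finset.mul_sum]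
    apply Finset.sum_le_sum
    intro i _
    have := stirling_upper (i + 1) (Nat.succ_pos i)
    calc _ ≤ x ^ (i + 1) * (Real.exp 1 * ((i + 1 : ℕ) : ℝ)) := by gcongr
      _ = _ := by ring
  have h4 := Real.add_one_le_exp (Real.exp 1 / (1 - θ) ^ 2 * x)
  have h5 : Real.exp 1 * ∑ i ∈ range N, ((i + 1 : ℕ) : ℝ) * x ^ (i + 1) ≤
      Real.exp 1 / (1 - θ) ^ 2 * x := by
    have : ∑ i ∈ range N, ((i + 1 : ℕ) : ℝ) * x ^ (i + 1) ≤ x / (1 - θ) ^ 2 := by
      simp only [Nat.cast_zero, zero_mul, add_zero] at h1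
      linarith
    calc _ ≤ Real.exp 1 * (x / (1 - θ) ^ 2) := by gcongr
      _ = _ := by ring
  simp only [Nat.cast_zero, pow_zero, Nat.factorial_zero, Nat.cast_one, Real.exp_zero, mul_one,
    div_one]
  linarith

lemma T_nonneg (h : ℕ → ℝ) (hh : ∀ i, 0 ≤ h i) (M : G → G → ℝ) (hM : ∀ x y, 0 ≤ M x y)
    (σ : Perm (Fin n)) : 0 ≤ T h M σ :=
  Finset.sum_nonneg (fun _ _ => mul_nonneg (Finset.prod_nonneg (fun _ _ => hh _))
    (Finset.prod_nonneg (fun _ _ => hM _ _)))

lemma T_conj (h : ℕ → ℝ) (M : G → G → ℝ) (c τ : Perm (Fin n)) :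
    T h M (τ * c * τ⁻¹) = T h M c := by
  unfold T
  rw [← sum_comp_perm τ (fun x => (∏ z, h (occ x z)) * ∏ i, M (x i) (x (c i)))]
  apply Finset.sum_congr rfl
  intro x _
  rw [occ_comp_perm]
  congr 1
  symm
  exact Fintype.prod_equiv τ _ _ (fun i => by simp)

lemma cycle_le (h : ℕ → ℝ) (hh : ∀ i, 0 ≤ h i) (M : G → G → ℝ) (hM : ∀ x y, 0 ≤ M x y) (m : ℕ) :
    ((m + 1).factorial : ℝ) * T h M (finRotate (m + 1)) ≤
      (m + 1) * ∑ σ : Perm (Fin (m + 1)), T h M σ := by
  set c := finRotate (m + 1) with hc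
  let Φ : Perm (Fin (m + 1)) → Perm (Fin (m + 1)) × Fin (m + 1) := fun τ => (τ * c * τ⁻¹, τ 0)
  have hΦ : Function.Injective Φ := by
    intro τ τ' hττ
    have h1 : τ * c * τ⁻¹ = τ' * c * τ'⁻¹ := congrArg Prod.fst hττ
    have h2 : τ 0 = τ' 0 := congrArg Prod.snd hττ
    ext i
    congr 1
    induction i using Fin.induction with
    | zero => exact h2
    | succ i ih =>
      have e : c i.castSucc = i.succ := by
        rw [hc, finRotate_apply, Fin.coeSucc_eq_succ]
      have a1 : (τ * c * τ⁻¹) (τ i.castSucc) = τ i.succ := by simp [e]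
      have a2 : (τ' * c * τ'⁻¹) (τ' i.castSucc) = τ' i.succ := by simp [e]
      rw [← a1, ← a2, h1, ih]
  have e1 : ((m + 1).factorial : ℝ) * T h M c = ∑ τ : Perm (Fin (m + 1)), T h M (Φ τ).1 := by
    simp only [Φ, T_conj]
    simp [Fintype.card_perm]
  have e2 : ((m : ℝ) + 1) * ∑ σ : Perm (Fin (m + 1)), T h M σ =
      ∑ p : Perm (Fin (m + 1)) × Fin (m + 1), T h M p.1 := by
    rw [Fintype.sum_prod_type]
    simp [Finset.mul_sum]
  rw [e1, e2, ← Finset.sum_image (s := univ) (g := Φ) (f := fun p => T h M p.1)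
    (fun a _ b _ hab => hΦ hab)]
  exact Finset.sum_le_sum_of_subset_of_nonneg (Finset.subset_univ _)
    (fun p _ _ => T_nonneg h hh M hM _)

lemma spectral (M : G → G → ℝ) (hsymm : ∀ x y, M x y = M y x) (hM : ∀ x y, 0 ≤ M x y) (θ : ℝ)
    (hrow : ∀ x, ∑ y, M x y ≤ θ) :
    ∃ (u : G → G → ℝ) (lam : G → ℝ),
      (∀ k l, ∑ z, u k z * u l z = if k = l then 1 else 0) ∧
      (∀ x y, M x y = ∑ k, lam k * u k x * u k y) ∧ (∀ k, |lam k| ≤ θ) ∧
      ∑ k, lam k ^ 2 = ∑ x, ∑ y, M x y ^ 2 := by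
  let A : Matrix G G ℝ := Matrix.of M
  have hA : A.IsHermitian := by
    ext x y
    simp [A, Matrix.conjTranspose_apply, hsymm x y]
  let b := hA.eigenvectorBasis
  let u : G → G → ℝ := fun k z => b k z
  let lam := hA.eigenvalues
  have hu : ∀ k l, ∑ z, u k z * u l z = if k = l then 1 else 0 := by
    intro k l
    have := orthonormal_iff_ite.1 b.orthonormal k l
    rw [← this, PiLp.inner_apply]
    apply Finset.sum_congr rfl
    intro z _
    simp [u, mul_comm]
  have heig : ∀ k x, ∑ y, M x y * u k y = lam k * u k x := by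
    intro k x
    have := congrFun (hA.mulVec_eigenvectorBasis k) x
    simpa [Matrix.mulVec, dotProduct, A] using this
  have hcomp : ∀ x y, ∑ k, u k x * u k y = if x = y then 1 else 0 := by
    intro x y
    let B : Matrix G G ℝ := Matrix.of u
    have h1 : B * B.transpose = 1 := by
      ext k l
      simp [B, Matrix.mul_apply, Matrix.one_apply, hu k l]
    have h2 : B.transpose * B = 1 := mul_eq_one_comm.1 h1
    have := congrFun (congrFun h2 x) y
    simpa [B, Matrix.mul_apply, Matrix.one_apply] using this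
  have hdec : ∀ x y, M x y = ∑ k, lam k * u k x * u k y := by
    intro x y
    simp only [← heig, Finset.sum_mul]
    rw [Finset.sum_comm]
    simp only [mul_assoc, ← Finset.mul_sum, hcomp]
    simp
  refine ⟨u, lam, hu, hdec, ?_, ?_⟩
  · intro k
    have : Nonempty G := ⟨k⟩
    obtain ⟨x, hx⟩ := Finite.exists_max (fun z => |u k z|)
    have hpos : 0 < |u k x| := by
      by_contra hn
      have h0 : ∀ z, u k z = 0 := fun z => by
        have := hx z
        have h2 : |u k z| ≤ 0 := by linarith [not_lt.1 hn]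
        exact abs_nonpos_iff.1 h2
      have := hu k k
      simp [h0] at this
    have h1 : |lam k| * |u k x| ≤ θ * |u k x| := by
      rw [← abs_mul, ← heig]
      calc _ ≤ ∑ y, |M x y * u k y| := Finset.abs_sum_le_sum_abs _ _
        _ ≤ ∑ y, M x y * |u k x| := by
            apply Finset.sum_le_sum
            intro y _
            rw [abs_mul, abs_of_nonneg (hM x y)]
            exact mul_le_mul_of_nonneg_left (hx y) (hM x y)
        _ ≤ θ * |u k x| := by
            rw [← Finset.sum_mul]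
            exact mul_le_mul_of_nonneg_right (hrow x) hpos.le
    exact le_of_mul_le_mul_right h1 hpos
  · have e : ∀ x, ∑ y, M x y ^ 2 = ∑ k, lam k ^ 2 * (u k x * u k x) := by
      intro x
      have := real_parseval u hu (fun k => lam k * u k x)
      simp only [← hdec] at this
      rw [this]
      apply Finset.sum_congr rfl
      intro k _
      ring
    simp only [e]
    rw [Finset.sum_comm]
    simp only [← Finset.mul_sum, hu]
    simp

/-- The core mean-field inequality. -/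
theorem core (M : G → G → ℝ) (hsymm : ∀ x y, M x y = M y x) (hM : ∀ x y, 0 ≤ M x y) (θ : ℝ)
    (hθ : θ < 1) (hrow : ∀ x, ∑ y, M x y ≤ θ) (m : ℕ) (h : ℕ → ℝ) (hh : ∀ i, 0 ≤ h i)
    (hH : ∀ ρ : ℝ, 0 ≤ ρ → ∑ i ∈ range (m + 1 + 1), h i * ρ ^ i / i.factorial ≤ Real.exp ρ)
    (a : ℝ) (ha : 0 < a) :
    T h M (finRotate (m + 1)) ≤ (m + 1) * Real.exp (Real.exp 1 / (1 - θ) ^ 2 *
      (a * Fintype.card G + (∑ x, ∑ y, M x y ^ 2) / a)) := by
  obtain ⟨u, lam, hu, hdec, hlam, hsq⟩ := spectral M hsymm hM θ hrow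
  have h1 := cycle_le h hh M hM m
  have h2 := perm_sum_bound (n := m + 1) u hu lam M hdec h hh hH
  have h3 : ∏ k, ∑ i ∈ range (m + 1 + 1), |lam k| ^ i * (i.factorial * Real.exp i / (i : ℝ) ^ i) ≤
      Real.exp (Real.exp 1 / (1 - θ) ^ 2 * (a * Fintype.card G + (∑ x, ∑ y, M x y ^ 2) / a)) := by
    calc _ ≤ ∏ k, Real.exp (Real.exp 1 / (1 - θ) ^ 2 * |lam k|) := by
          apply Finset.prod_le_prod
          · intro k _; positivity
          · intro k _; exact mode_sum_le _ θ (abs_nonneg _) (hlam k) hθ _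
      _ = Real.exp (Real.exp 1 / (1 - θ) ^ 2 * ∑ k, |lam k|) := by
          rw [← Real.exp_sum, Finset.mul_sum]
      _ ≤ _ := by
          apply Real.exp_le_exp.2
          apply mul_le_mul_of_nonneg_left _ (by positivity)
          rw [← hsq, Finset.sum_div]
          have : a * Fintype.card G = ∑ _k : G, a := by simp [mul_comm]
          rw [this, ← Finset.sum_add_distrib]
          apply Finset.sum_le_sum
          intro k _
          rw [← sq_abs (lam k)]
          have h0 := abs_nonneg (lam k)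
          generalize |lam k| = t at h0
          have : t * a ≤ a * a + t ^ 2 := by nlinarith [sq_nonneg (t - a)]
          calc t = t * a / a := by field_simp
            _ ≤ (a * a + t ^ 2) / a := by gcongr
            _ = _ := by field_simp
  have hf : (0 : ℝ) < (m + 1).factorial := by exact_mod_cast Nat.factorial_pos _
  apply le_of_mul_le_mul_left _ hf
  refine h1.trans ?_
  calc _ ≤ ((m : ℝ) + 1) * ((m + 1).factorial * Real.exp (Real.exp 1 / (1 - θ) ^ 2 *
      (a * Fintype.card G + (∑ x, ∑ y, M x y ^ 2) / a))) := by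
        apply mul_le_mul_of_nonneg_left _ (by positivity)
        exact h2.trans (mul_le_mul_of_nonneg_left h3 hf.le)
    _ = _ := by ring

end Pool.Agent.MP_de3d19_pr.H76
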