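import Mathlib
import Pool.Agent.MP_de3d19_pr.H76.Defs
import Pool.Agent.MP_de3d19_pr.H76.Perm

set_option autoImplicit false
set_option linter.unusedSectionVars false

namespace Pool.Agent.MP_de3d19_pr.H76

open Finset Equiv

/-- partition function for a general weight -/
noncomputable def Zg (g : ℕ → ℝ) (d n : ℕ) : ℝ :=
  (∑ w : Fin n → Fin d × Bool, ∏ᶠ x : Fin d → ℤ, g (localTime w x)) / (2 * d : ℝ) ^ n

lemma localTime_eq_occ {d n : ℕ} (w : Fin n → Fin d × Bool) (x : Fin d → ℤ) :
    localTime w x = occ (pos w) x := rfl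

lemma occ_eq_zero {n : ℕ} {X : Type*} [DecidableEq X] (p : Fin n → X) (x : X)
    (hx : x ∉ univ.image p) : occ p x = 0 := by
  unfold occ
  rw [Finset.card_eq_zero, Finset.filter_eq_empty_iff]
  intro i _ h
  exact hx (Finset.mem_image.2 ⟨i, mem_univ _, h⟩)

lemma finprod_eq {n : ℕ} {X : Type*} [DecidableEq X] (p : Fin n → X) (g : ℕ → ℝ) (g0 : g 0 = 1)
    (s : Finset X) (hs : univ.image p ⊆ s) :
    ∏ᶠ x, g (occ p x) = ∏ x ∈ s, g (occ p x) := by
  apply finprod_eq_prod_of_mulSupport_subset
  intro x hx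
  by_contra hn
  apply hx
  simp only
  rw [occ_eq_zero p x (fun h => hn (hs h)), g0]

section collision

variable {n : ℕ} {X G : Type*} [DecidableEq X] [Fintype G] [DecidableEq G]

/-- number of times involved in a collision, at site `z` -/
def badAt (p : Fin n → X) (φ : X → G) (z : G) : ℕ :=
  (univ.filter (fun i => φ (p i) = z ∧ ∃ i', p i ≠ p i' ∧ φ (p i) = φ (p i'))).card

lemma fibre_le (p : Fin n → X) (φ : X → G) (g : ℕ → ℝ) (W t : ℝ) (g0 : g 0 = 1)
    (hg : ∀ i, 0 ≤ g i) (hgW : ∀ i, g i ≤ W) (ht : 0 < t) (ht1 : t ≤ 1) (z : G) :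
    ∏ x ∈ (univ.image p).filter (fun x => φ x = z), g (occ p x) ≤
      (W / t) ^ badAt p φ z *
        (g (occ (φ ∘ p) z) + if occ (φ ∘ p) z = 0 then 0 else t) := by
  have hW : 1 ≤ W := g0 ▸ hgW 0
  have hWt : 1 ≤ W / t := by rw [le_div_iff₀ ht]; linarith
  have hpow : 1 ≤ (W / t) ^ badAt p φ z := one_le_pow₀ hWt
  have hite : 0 ≤ (if occ (φ ∘ p) z = 0 then 0 else t) := by split_ifs <;> linarith
  set R := (univ.image p).filter (fun x => φ x = z) with hR
  have memR : ∀ i, φ (p i) = z → p i ∈ R := fun i hi =>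
    Finset.mem_filter.2 ⟨Finset.mem_image.2 ⟨i, mem_univ _, rfl⟩, hi⟩
  by_cases hc : R.card ≤ 1
  · have key : ∏ x ∈ R, g (occ p x) = g (occ (φ ∘ p) z) := by
      rcases R.eq_empty_or_nonempty with h0 | ⟨x, hx⟩
      · rw [h0, Finset.prod_empty]
        have : occ (φ ∘ p) z = 0 := by
          unfold occ
          rw [Finset.card_eq_zero, Finset.filter_eq_empty_iff]
          intro i _ h
          have := memR i h
          rw [h0] at this
          simp at this
        rw [this, g0]
      · have h1 : R = {x} := by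
          rw [Finset.eq_singleton_iff_unique_mem]
          exact ⟨hx, fun y hy => Finset.card_le_one.1 hc y hy x hx⟩
        rw [h1, Finset.prod_singleton]
        congr 1
        unfold occ
        congr 1
        apply Finset.filter_congr
        intro i _
        constructor
        · intro h
          have := (Finset.mem_filter.1 hx).2
          simp only [Function.comp]
          rw [h, this]
        · intro h
          have := memR i h
          rw [h1] at this
          simpa using this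
    rw [key]
    have := hg (occ (φ ∘ p) z)
    nlinarith
  · push Not at hc
    have hb : badAt p φ z = occ (φ ∘ p) z := by
      unfold badAt occ
      congr 1
      apply Finset.filter_congr
      intro i _
      constructor
      · exact fun h => h.1
      · intro h
        refine ⟨h, ?_⟩
        obtain ⟨y, hy, hne⟩ := Finset.exists_mem_ne hc (p i)
        obtain ⟨hy1, hy2⟩ := Finset.mem_filter.1 hy
        obtain ⟨i', -, rfl⟩ := Finset.mem_image.1 hy1
        exact ⟨i', fun e => hne e.symm, by rw [hy2]; exact h⟩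
    have hRle : R.card ≤ occ (φ ∘ p) z := by
      unfold occ
      apply Finset.card_le_card_of_surjOn p
      intro y hy
      obtain ⟨hy1, hy2⟩ := Finset.mem_filter.1 hy
      obtain ⟨i', -, rfl⟩ := Finset.mem_image.1 hy1
      exact ⟨i', by simpa using hy2, rfl⟩
    rw [hb]
    obtain ⟨b, hb'⟩ : ∃ b, occ (φ ∘ p) z = b + 1 := ⟨occ (φ ∘ p) z - 1, by omega⟩
    rw [hb'] at hRle ⊢
    have h1 : ∏ x ∈ R, g (occ p x) ≤ W ^ (b + 1) := by
      calc _ ≤ ∏ _x ∈ R, W := Finset.prod_le_prod (fun x _ => hg _) (fun x _ => hgW _)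
        _ = W ^ R.card := Finset.prod_const _
        _ ≤ _ := pow_le_pow_right₀ hW hRle
    have h2 : W ^ (b + 1) ≤ (W / t) ^ (b + 1) * t := by
      rw [pow_succ, pow_succ, mul_assoc, div_mul_cancel₀ _ ht.ne']
      apply mul_le_mul_of_nonneg_right _ (by linarith)
      apply pow_le_pow_left₀ (by linarith)
      rw [le_div_iff₀ ht]
      nlinarith
    rw [if_neg (Nat.succ_ne_zero b)]
    refine h1.trans (h2.trans ?_)
    apply mul_le_mul_of_nonneg_left _ (by positivity)
    linarith [hg (b + 1)]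

/-- number of colliding pairs of times -/
def pairs (p : Fin n → X) (φ : X → G) : ℕ :=
  (univ.filter (fun ii : Fin n × Fin n => p ii.1 ≠ p ii.2 ∧ φ (p ii.1) = φ (p ii.2))).card

lemma sum_badAt_le (p : Fin n → X) (φ : X → G) : ∑ z, badAt p φ z ≤ pairs p φ := by
  have h1 : ∑ z, badAt p φ z =
      (univ.filter (fun i => ∃ i', p i ≠ p i' ∧ φ (p i) = φ (p i'))).card := by
    rw [Finset.card_eq_sum_card_fiberwise (f := fun i => φ (p i)) (t := univ)
      (fun _ _ => by simp)]
    apply Finset.sum_congr rfl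
    intro z _
    unfold badAt
    rw [Finset.filter_filter]
    congr 1
    apply Finset.filter_congr
    intro i _
    exact and_comm
  rw [h1]
  unfold pairs
  apply Finset.card_le_card_of_surjOn Prod.fst
  intro i hi
  simp only [coe_filter, mem_univ, true_and, Set.mem_ofPred_eq] at hi
  obtain ⟨i', h⟩ := hi
  exact ⟨(i, i'), by simpa using h, rfl⟩

lemma collision (p : Fin n → X) (φ : X → G) (g : ℕ → ℝ) (W t lam : ℝ) (g0 : g 0 = 1)
    (hg : ∀ i, 0 ≤ g i) (hgW : ∀ i, g i ≤ W) (ht : 0 < t) (ht1 : t ≤ 1) (hlam : 0 < lam) :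
    ∏ᶠ x, g (occ p x) ≤ Real.exp (Real.log (W / t) * pairs p φ) * (lam ^ n *
      ∏ z, ((g (occ (φ ∘ p) z) + if occ (φ ∘ p) z = 0 then 0 else t) / lam ^ occ (φ ∘ p) z)) := by
  have hW : 1 ≤ W := g0 ▸ hgW 0
  have hWt : 1 ≤ W / t := by rw [le_div_iff₀ ht]; linarith
  rw [finprod_eq p g g0 _ (Finset.Subset.refl _),
    ← Finset.prod_fiberwise (s := univ.image p) (g := φ)]
  have e1 : lam ^ n = ∏ z, lam ^ occ (φ ∘ p) z := by
    rw [← prod_comp_eq_prod_pow (φ ∘ p) (fun _ => lam)]
    simp
  have e2 : lam ^ n *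
      ∏ z, ((g (occ (φ ∘ p) z) + if occ (φ ∘ p) z = 0 then 0 else t) / lam ^ occ (φ ∘ p) z) =
      ∏ z, (g (occ (φ ∘ p) z) + if occ (φ ∘ p) z = 0 then 0 else t) := by
    rw [e1, ← Finset.prod_mul_distrib]
    apply Finset.prod_congr rfl
    intro z _
    have : 0 < lam ^ occ (φ ∘ p) z := by positivity
    field_simp
  rw [e2]
  calc _ ≤ ∏ z, ((W / t) ^ badAt p φ z *
        (g (occ (φ ∘ p) z) + if occ (φ ∘ p) z = 0 then 0 else t)) :=
        Finset.prod_le_prod (fun z _ => Finset.prod_nonneg (fun x _ => hg _))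
          (fun z _ => fibre_le p φ g W t g0 hg hgW ht ht1 z)
    _ = (W / t) ^ (∑ z, badAt p φ z) *
        ∏ z, (g (occ (φ ∘ p) z) + if occ (φ ∘ p) z = 0 then 0 else t) := by
        rw [Finset.prod_mul_distrib, Finset.prod_pow_eq_pow_sum]
    _ ≤ _ := by
        apply mul_le_mul_of_nonneg_right
        · rw [mul_comm, Real.exp_nat_mul, Real.exp_log (by linarith)]
          exact pow_le_pow_right₀ hWt (sum_badAt_le p φ)
        · apply Finset.prod_nonneg
          intro z _
          have := hg (occ (φ ∘ p) z)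
          split_ifs <;> linarith

end collision

end Pool.Agent.MP_de3d19_pr.H76
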