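import Mathlib
import Pool.Agent.MP_de3d19_pr.H76.Fold1

set_option autoImplicit false
set_option linter.unusedSectionVars false

namespace Pool.Agent.MP_de3d19_pr.H76

open Finset Equiv

variable {D q : ℕ} [Fact q.Prime]

/-- the folding map -/
def fold (a : Fin D → ZMod q) (x : Fin D → ℤ) : ZMod q := ∑ i, a i * (x i : ZMod q)

lemma fold_add (a : Fin D → ZMod q) (x y : Fin D → ℤ) : fold a (x + y) = fold a x + fold a y := by
  unfold fold
  rw [← Finset.sum_add_distrib]
  apply Finset.sum_congr rfl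
  intro i _
  simp [mul_add]

lemma fold_sub (a : Fin D → ZMod q) (x y : Fin D → ℤ) : fold a (x - y) = fold a x - fold a y := by
  unfold fold
  rw [← Finset.sum_sub_distrib]
  apply Finset.sum_congr rfl
  intro i _
  simp [mul_sub]

lemma fold_neg (a : Fin D → ZMod q) (x : Fin D → ℤ) : fold a (-x) = -fold a x := by
  unfold fold
  rw [← Finset.sum_neg_distrib]
  apply Finset.sum_congr rfl
  intro i _
  simp

lemma card_fold_zero (v : Fin D → ℤ) (i0 : Fin D) (hv : (v i0 : ZMod q) ≠ 0) :
    (univ.filter (fun a : Fin D → ZMod q => fold a v = 0)).card * q = q ^ D := by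
  have h1 : ∀ c : ZMod q, (univ.filter (fun a : Fin D → ZMod q => fold a v = c)).card =
      (univ.filter (fun a : Fin D → ZMod q => fold a v = 0)).card := by
    intro c
    let e : Fin D → ZMod q := Pi.single i0 (c / (v i0 : ZMod q))
    have he : ∀ a : Fin D → ZMod q, fold (a + e) v = fold a v + c := by
      intro a
      unfold fold
      simp only [Pi.add_apply, add_mul, Finset.sum_add_distrib]
      congr 1
      rw [Finset.sum_eq_single i0]
      · simp only [e, Pi.single_eq_same]
        field_simp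
      · intro b _ hb
        simp [e, Pi.single_eq_of_ne hb]
      · simp
    symm
    apply Finset.card_bij (fun a _ => a + e)
    · intro a ha
      simp only [mem_filter, mem_univ, true_and] at ha ⊢
      rw [he, ha, zero_add]
    · intro a _ b _ hab
      exact add_right_cancel hab
    · intro b hb
      simp only [mem_filter, mem_univ, true_and] at hb
      refine ⟨b - e, ?_, by simp⟩
      simp only [mem_filter, mem_univ, true_and]
      have := he (b - e)
      rw [sub_add_cancel, hb] at this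
      linear_combination -this
  have h2 := Finset.card_eq_sum_card_fiberwise (s := (univ : Finset (Fin D → ZMod q)))
    (t := (univ : Finset (ZMod q))) (f := fun a => fold a v) (fun _ _ => by simp)
  simp only [h1, Finset.sum_const, card_univ, ZMod.card, Fintype.card_fun, Fintype.card_fin,
    smul_eq_mul] at h2
  rw [h2, mul_comm]

lemma card_fold_eq (x y : Fin D → ℤ) (hxy : x ≠ y) (hb : ∀ i, |x i - y i| < q) :
    ((univ.filter (fun a : Fin D → ZMod q => fold a x = fold a y)).card : ℝ) = (q : ℝ) ^ D / q := by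
  obtain ⟨i0, hi⟩ := Function.ne_iff.1 hxy
  have hv : (((x - y) i0 : ℤ) : ZMod q) ≠ 0 := by
    rw [Ne, ZMod.intCast_zmod_eq_zero_iff_dvd]
    intro hd
    have := Int.eq_zero_of_abs_lt_dvd hd (hb i0)
    exact hi (sub_eq_zero.1 this)
  have h := card_fold_zero (x - y) i0 hv
  simp only [fold_sub, sub_eq_zero] at h
  have hq : (0 : ℝ) < q := by exact_mod_cast (Fact.out : q.Prime).pos
  rw [eq_div_iff hq.ne']
  exact_mod_cast h

lemma abs_step_le {d : ℕ} (s : Fin d × Bool) (i : Fin d) : |step s i| ≤ 1 := by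
  unfold step
  by_cases h : i = s.1
  · subst h; simp only [Pi.single_eq_same]; split_ifs <;> simp
  · simp [Pi.single_eq_of_ne h]

lemma abs_pos_le {d n : ℕ} (w : Fin n → Fin d × Bool) (j : Fin n) (i : Fin d) :
    |pos w j i| ≤ n := by
  unfold pos
  rw [Finset.sum_apply]
  calc _ ≤ ∑ k ∈ Iic j, |step (w k) i| := Finset.abs_sum_le_sum_abs _ _
    _ ≤ ∑ _k ∈ Iic j, (1 : ℤ) := Finset.sum_le_sum (fun k _ => abs_step_le _ _)
    _ = (Iic j).card := by simp
    _ ≤ n := by
        have := Finset.card_le_univ (Iic j)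
        rw [Fintype.card_fin] at this
        exact_mod_cast this

lemma step_injective {d : ℕ} : Function.Injective (step (d := d)) := by
  rintro ⟨i, b⟩ ⟨j, c⟩ h
  have h1 := congrFun h i
  unfold step at h1
  by_cases hij : i = j
  · subst hij
    simp only [Pi.single_eq_same] at h1
    cases b <;> cases c <;> simp_all
  · simp only [Pi.single_eq_same, Pi.single_eq_of_ne hij] at h1
    cases b <;> simp at h1

lemma step_flip {d : ℕ} (s : Fin d × Bool) : step (s.1, !s.2) = -step s := by
  obtain ⟨i, b⟩ := s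
  unfold step
  cases b <;> simp [← Pi.single_neg]

lemma pos_succ {d m : ℕ} (w : Fin (m + 1) → Fin d × Bool) (i : Fin m) :
    pos w i.succ = pos w i.castSucc + step (w i.succ) := by
  unfold pos
  have : Iic i.succ = insert i.succ (Iic i.castSucc) := by
    ext k
    simp only [mem_Iic, mem_insert, Fin.le_def, Fin.ext_iff, Fin.val_succ, Fin.val_castSucc]
    omega
  rw [this, Finset.sum_insert, add_comm]
  simp only [mem_Iic, Fin.le_def, Fin.val_succ, Fin.val_castSucc]
  omega

/-- number of steps folding to `z` -/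
def cnt (a : Fin D → ZMod q) (z : ZMod q) : ℕ :=
  (univ.filter (fun s : Fin D × Bool => fold a (step s) = z)).card

lemma cnt_neg (a : Fin D → ZMod q) (z : ZMod q) : cnt a (-z) = cnt a z := by
  unfold cnt
  apply Finset.card_bij (fun s _ => (s.1, !s.2))
  · intro s hs
    simp only [mem_filter, mem_univ, true_and] at hs ⊢
    rw [step_flip, fold_neg, hs, neg_neg]
  · intro s _ t _ h
    have h1 := congrArg Prod.fst h
    have h2 := congrArg Prod.snd h
    simp only [Bool.not_inj_iff] at h1 h2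
    exact Prod.ext h1 h2
  · intro s hs
    simp only [mem_filter, mem_univ, true_and] at hs
    refine ⟨(s.1, !s.2), ?_, by simp⟩
    simp only [mem_filter, mem_univ, true_and]
    rw [step_flip, fold_neg, hs]

lemma sum_cnt (a : Fin D → ZMod q) : ∑ z, cnt a z = 2 * D := by
  have h2 := Finset.card_eq_sum_card_fiberwise (s := (univ : Finset (Fin D × Bool)))
    (t := (univ : Finset (ZMod q))) (f := fun s => fold a (step s)) (fun _ _ => by simp)
  unfold cnt
  rw [← h2]
  simp [mul_comm]

lemma sum_cnt_sq (a : Fin D → ZMod q) : ∑ z, cnt a z ^ 2 =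
    (univ.filter (fun ss : (Fin D × Bool) × (Fin D × Bool) =>
      fold a (step ss.1) = fold a (step ss.2))).card := by
  rw [Finset.card_eq_sum_card_fiberwise (t := (univ : Finset (ZMod q)))
    (f := fun ss : (Fin D × Bool) × (Fin D × Bool) => fold a (step ss.1)) (fun _ _ => by simp)]
  apply Finset.sum_congr rfl
  intro z _
  unfold cnt
  rw [sq, ← Finset.card_product]
  congr 1
  ext ss
  simp only [mem_product, mem_filter, mem_univ, true_and]
  constructor
  · rintro ⟨h1, h2⟩
    exact ⟨h1.trans h2.symm, h1⟩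
  · rintro ⟨h1, h2⟩
    exact ⟨h2, h1.symm.trans h2⟩

lemma sum_card_filter_comm {A B : Type*} [Fintype A] [Fintype B] (P : A → B → Prop)
    [∀ a b, Decidable (P a b)] :
    ∑ a, ((univ.filter (fun b => P a b)).card : ℝ) =
      ∑ b, ((univ.filter (fun a => P a b)).card : ℝ) := by
  simp only [Finset.card_filter]
  push_cast
  exact Finset.sum_comm

lemma avg_cnt_sq (hq : 2 < q) : ∑ a : Fin D → ZMod q, ∑ z, (cnt a z : ℝ) ^ 2 ≤
    (q : ℝ) ^ D * (2 * D + (2 * D) ^ 2 / q) := by
  have e : ∀ a : Fin D → ZMod q, ∑ z, (cnt a z : ℝ) ^ 2 =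
      ((univ.filter (fun ss : (Fin D × Bool) × (Fin D × Bool) =>
      fold a (step ss.1) = fold a (step ss.2))).card : ℝ) := by
    intro a
    exact_mod_cast sum_cnt_sq a
  simp only [e]
  rw [sum_card_filter_comm]
  have hq0 : (0 : ℝ) < q := by exact_mod_cast (Fact.out : q.Prime).pos
  have h1 : ∀ ss : (Fin D × Bool) × (Fin D × Bool),
      ((univ.filter (fun a : Fin D → ZMod q => fold a (step ss.1) = fold a (step ss.2))).card : ℝ)
        ≤ (if ss.1 = ss.2 then (q : ℝ) ^ D else 0) + (q : ℝ) ^ D / q := by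
    intro ss
    split_ifs with h
    · have := Finset.card_le_univ
        (univ.filter (fun a : Fin D → ZMod q => fold a (step ss.1) = fold a (step ss.2)))
      rw [Fintype.card_fun, ZMod.card, Fintype.card_fin] at this
      have h2 : ((univ.filter (fun a : Fin D → ZMod q =>
        fold a (step ss.1) = fold a (step ss.2))).card : ℝ) ≤ (q : ℝ) ^ D := by exact_mod_cast this
      have : 0 ≤ (q : ℝ) ^ D / q := by positivity
      linarith
    · rw [card_fold_eq _ _ (fun e => h (step_injective e)), zero_add]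
      intro i
      have h1 := abs_step_le ss.1 i
      have h2 := abs_step_le ss.2 i
      have h3 := abs_sub (step ss.1 i) (step ss.2 i)
      omega
  refine (Finset.sum_le_sum (fun ss _ => h1 ss)).trans (le_of_eq ?_)
  rw [Finset.sum_add_distrib, Fintype.sum_prod_type]
  simp only [Finset.sum_ite_eq, mem_univ, if_true, Finset.sum_const, card_univ, Fintype.card_prod,
    Fintype.card_fin, Fintype.card_bool, nsmul_eq_mul]
  push_cast
  ring

lemma avg_pairs {n : ℕ} (hq : 2 * n < q) (w : Fin n → Fin D × Bool) :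
    ∑ a : Fin D → ZMod q, (pairs (pos w) (fold a) : ℝ) ≤ (q : ℝ) ^ D * (n ^ 2 / q) := by
  unfold pairs
  rw [sum_card_filter_comm]
  have hq0 : (0 : ℝ) < q := by exact_mod_cast (Fact.out : q.Prime).pos
  have h1 : ∀ ii : Fin n × Fin n, ((univ.filter (fun a : Fin D → ZMod q =>
      pos w ii.1 ≠ pos w ii.2 ∧ fold a (pos w ii.1) = fold a (pos w ii.2))).card : ℝ)
        ≤ (q : ℝ) ^ D / q := by
    intro ii
    by_cases h : pos w ii.1 = pos w ii.2
    · simp only [h, ne_eq, not_true_eq_false, false_and, filter_false, card_empty, Nat.cast_zero]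
      positivity
    · simp only [ne_eq, h, not_false_eq_true, true_and]
      rw [card_fold_eq _ _ h]
      intro i
      have h1 := abs_pos_le w ii.1 i
      have h2 := abs_pos_le w ii.2 i
      have h3 := abs_sub (pos w ii.1 i) (pos w ii.2 i)
      omega
  refine (Finset.sum_le_sum (fun ii _ => h1 ii)).trans (le_of_eq ?_)
  simp only [Finset.sum_const, card_univ, Fintype.card_prod, Fintype.card_fin, nsmul_eq_mul]
  push_cast
  ring

lemma card_walk_fibre {m : ℕ} (a : Fin D → ZMod q) (y : Fin (m + 1) → ZMod q) :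
    (univ.filter (fun w : Fin (m + 1) → Fin D × Bool => fold a ∘ pos w = y)).card ≤
      2 * D * ∏ i : Fin m, cnt a (y i.succ - y i.castSucc) := by
  let t : Fin (m + 1) → Finset (Fin D × Bool) :=
    Fin.cons univ (fun i : Fin m =>
      univ.filter (fun s : Fin D × Bool => fold a (step s) = y i.succ - y i.castSucc))
  have h1 : univ.filter (fun w : Fin (m + 1) → Fin D × Bool => fold a ∘ pos w = y) ⊆
      Fintype.piFinset t := by
    intro w hw
    simp only [mem_filter, mem_univ, true_and] at hw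
    rw [Fintype.mem_piFinset]
    intro i
    refine Fin.cases ?_ (fun i => ?_) i
    · simp [t]
    · simp only [t, Fin.cons_succ, mem_filter, mem_univ, true_and]
      rw [← hw]
      simp only [Function.comp]
      rw [pos_succ, fold_add]
      ring
  refine (Finset.card_le_card h1).trans (le_of_eq ?_)
  rw [Fintype.card_piFinset, Fin.prod_univ_succ]
  simp only [t, Fin.cons_zero, Fin.cons_succ, card_univ, Fintype.card_prod, Fintype.card_fin,
    Fintype.card_bool]
  rw [mul_comm D 2]
  rfl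

/-- the folded transition matrix, damped and with a uniform part -/
noncomputable def Mat (θ ε : ℝ) (a : Fin D → ZMod q) (y z : ZMod q) : ℝ :=
  θ * (cnt a (z - y) / (2 * D)) + ε / q

lemma walk_le {m : ℕ} (hD : 0 < D) (θ ε : ℝ) (hθ : 0 < θ) (hε : 0 < ε) (a : Fin D → ZMod q)
    (h : ℕ → ℝ) (hh : ∀ i, 0 ≤ h i) :
    (∑ w : Fin (m + 1) → Fin D × Bool, ∏ z, h (occ (fold a ∘ pos w) z)) / (2 * D : ℝ) ^ (m + 1) ≤
      (q / ε / θ ^ m) * T h (Mat θ ε a) (finRotate (m + 1)) := by
  have hq0 : (0 : ℝ) < q := by exact_mod_cast (Fact.out : q.Prime).pos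
  have hD0 : (0 : ℝ) < D := by exact_mod_cast hD
  rw [← Finset.sum_fiberwise (s := univ) (g := fun w : Fin (m + 1) → Fin D × Bool => fold a ∘ pos w)]
  unfold T
  rw [Finset.sum_div, Finset.mul_sum]
  apply Finset.sum_le_sum
  intro y _
  rw [Finset.sum_congr rfl (g := fun _ => ∏ z, h (occ y z))
    (fun w hw => by rw [(Finset.mem_filter.1 hw).2]), Finset.sum_const, nsmul_eq_mul]
  have hf : 0 ≤ ∏ z, h (occ y z) := Finset.prod_nonneg (fun _ _ => hh _)
  rw [mul_comm _ (∏ z, h (occ y z)), mul_div_assoc, mul_left_comm]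
  apply mul_le_mul_of_nonneg_left _ hf
  have h1 : ((univ.filter (fun w : Fin (m + 1) → Fin D × Bool => fold a ∘ pos w = y)).card : ℝ) ≤
      2 * D * ∏ i : Fin m, (cnt a (y i.succ - y i.castSucc) : ℝ) := by
    exact_mod_cast card_walk_fibre a y
  rw [Fin.prod_univ_castSucc]
  have h2 : ε / q ≤ Mat θ ε a (y (Fin.last m)) (y (finRotate (m + 1) (Fin.last m))) := by
    unfold Mat
    have : 0 ≤ θ * ((cnt a (y (finRotate (m + 1) (Fin.last m)) - y (Fin.last m)) : ℝ) / (2 * D)) := by
      positivity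
    linarith
  have h3 : ∏ i : Fin m, (θ * ((cnt a (y i.succ - y i.castSucc) : ℝ) / (2 * D))) ≤
      ∏ i : Fin m, Mat θ ε a (y i.castSucc) (y (finRotate (m + 1) i.castSucc)) := by
    apply Finset.prod_le_prod
    · intro i _; positivity
    · intro i _
      rw [finRotate_apply, Fin.coeSucc_eq_succ]
      unfold Mat
      have : 0 ≤ ε / q := by positivity
      linarith
  rw [Finset.prod_mul_distrib, Finset.prod_div_distrib, Finset.prod_const, Finset.prod_const,
    card_univ, Fintype.card_fin] at h3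
  have hP : 0 ≤ ∏ i : Fin m, (cnt a (y i.succ - y i.castSucc) : ℝ) := by positivity
  calc _ ≤ (2 * D * ∏ i : Fin m, (cnt a (y i.succ - y i.castSucc) : ℝ)) / (2 * D) ^ (m + 1) := by
        gcongr
    _ = q / ε / θ ^ m * ((θ ^ m * ((∏ i : Fin m, (cnt a (y i.succ - y i.castSucc) : ℝ)) /
          (2 * D) ^ m)) * (ε / q)) := by
        field_simp
        ring
    _ ≤ _ := by
        apply mul_le_mul_of_nonneg_left _ (by positivity)
        exact mul_le_mul h3 h2 (by positivity) (le_trans (by positivity) h3)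

lemma Mat_symm (θ ε : ℝ) (a : Fin D → ZMod q) (y z : ZMod q) : Mat θ ε a y z = Mat θ ε a z y := by
  unfold Mat
  rw [← cnt_neg a (z - y), neg_sub]

lemma Mat_nonneg (θ ε : ℝ) (hθ : 0 < θ) (hε : 0 < ε) (a : Fin D → ZMod q) (y z : ZMod q) :
    0 ≤ Mat θ ε a y z := by
  unfold Mat; positivity

lemma sum_sub_shift (F : ZMod q → ℝ) (y : ZMod q) : ∑ z, F (z - y) = ∑ z, F z :=
  Fintype.sum_equiv (Equiv.subRight y) _ _ (fun _ => rfl)

lemma Mat_row (hD : 0 < D) (θ ε : ℝ) (a : Fin D → ZMod q) (y : ZMod q) :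
    ∑ z, Mat θ ε a y z = θ + ε := by
  have hq0 : (0 : ℝ) < q := by exact_mod_cast (Fact.out : q.Prime).pos
  have hD0 : (0 : ℝ) < D := by exact_mod_cast hD
  unfold Mat
  rw [Finset.sum_add_distrib, ← Finset.mul_sum, ← Finset.sum_div,
    sum_sub_shift (fun z => (cnt a z : ℝ)) y]
  have : ∑ z, (cnt a z : ℝ) = 2 * D := by exact_mod_cast sum_cnt a
  rw [this]
  simp only [Finset.sum_const, card_univ, ZMod.card, nsmul_eq_mul]
  field_simp

lemma Mat_sq (hD : 0 < D) (θ ε : ℝ) (hθ : 0 < θ) (hθ1 : θ ≤ 1) (hε : 0 < ε) (hε1 : ε ≤ 1)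
    (a : Fin D → ZMod q) :
    ∑ y, ∑ z, Mat θ ε a y z ^ 2 ≤ 2 * q * (∑ z, (cnt a z : ℝ) ^ 2) / (2 * D) ^ 2 + 2 := by
  have hq0 : (0 : ℝ) < q := by exact_mod_cast (Fact.out : q.Prime).pos
  have hD0 : (0 : ℝ) < D := by exact_mod_cast hD
  have h1 : ∀ y z, Mat θ ε a y z ^ 2 ≤ 2 * (cnt a (z - y) : ℝ) ^ 2 / (2 * D) ^ 2 + 2 / q ^ 2 := by
    intro y z
    unfold Mat
    have hA : θ * ((cnt a (z - y) : ℝ) / (2 * D)) ≤ (cnt a (z - y) : ℝ) / (2 * D) :=
      mul_le_of_le_one_left (by positivity) hθ1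
    have hB : ε / q ≤ 1 / q := by gcongr
    have hA0 : 0 ≤ θ * ((cnt a (z - y) : ℝ) / (2 * D)) := by positivity
    have hB0 : 0 ≤ ε / q := by positivity
    have e : 2 * (cnt a (z - y) : ℝ) ^ 2 / (2 * D) ^ 2 + 2 / q ^ 2 =
        2 * ((cnt a (z - y) : ℝ) / (2 * D)) ^ 2 + 2 * (1 / q) ^ 2 := by
      field_simp
    rw [e]
    nlinarith [sq_nonneg (θ * ((cnt a (z - y) : ℝ) / (2 * D)) - ε / q),
      pow_le_pow_left₀ hA0 hA 2, pow_le_pow_left₀ hB0 hB 2]
  refine (Finset.sum_le_sum (fun y _ => Finset.sum_le_sum (fun z _ => h1 y z))).trans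
    (le_of_eq ?_)
  simp only [Finset.sum_add_distrib, ← Finset.sum_div, ← Finset.mul_sum]
  have : ∀ y : ZMod q, ∑ z, (cnt a (z - y) : ℝ) ^ 2 = ∑ z, (cnt a z : ℝ) ^ 2 :=
    fun y => sum_sub_shift (fun z => (cnt a z : ℝ) ^ 2) y
  simp only [this, Finset.sum_const, card_univ, ZMod.card, nsmul_eq_mul]
  field_simp

end Pool.Agent.MP_de3d19_pr.H76
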