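import Mathlib
import Pool.Agent.MP_de3d19_pr.H76.Defs

set_option autoImplicit false
set_option linter.unusedSectionVars false

namespace Pool.Agent.MP_de3d19_pr.H76

open Finset MeasureTheory

/-- the two-point charge law -/
noncomputable def law : Measure ℝ :=
  ENNReal.ofReal (4 / 13) • Measure.dirac (3 / 2 : ℝ) +
    ENNReal.ofReal (9 / 13) • Measure.dirac (-2 / 3 : ℝ)

instance law_prob : IsProbabilityMeasure law := ⟨by
  simp only [law, Measure.coe_add, Measure.coe_smul, Pi.add_apply, Pi.smul_apply, measure_univ,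
    smul_eq_mul, mul_one]
  rw [← ENNReal.ofReal_add (by norm_num) (by norm_num)]
  norm_num⟩

lemma law_ae : ∀ᵐ x ∂law, x = 3 / 2 ∨ x = -2 / 3 := by
  unfold law
  rw [ae_add_measure_iff]
  constructor
  · apply Measure.ae_smul_measure
    simp
  · apply Measure.ae_smul_measure
    simp

lemma law_integrable (f : ℝ → ℝ) : Integrable f law := by
  unfold law
  apply Integrable.add_measure
  · exact (integrable_dirac (by simp)).smul_measure ENNReal.ofReal_ne_top
  · exact (integrable_dirac (by simp)).smul_measure ENNReal.ofReal_ne_top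

lemma law_integral (f : ℝ → ℝ) : ∫ x, f x ∂law = 4 / 13 * f (3 / 2) + 9 / 13 * f (-2 / 3) := by
  unfold law
  rw [integral_add_measure ((integrable_dirac (by simp)).smul_measure ENNReal.ofReal_ne_top)
    ((integrable_dirac (by simp)).smul_measure ENNReal.ofReal_ne_top),
    integral_smul_measure, integral_smul_measure, integral_dirac, integral_dirac,
    ENNReal.toReal_ofReal (by norm_num), ENNReal.toReal_ofReal (by norm_num)]
  simp

lemma law_admissible : Admissible law := by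
  refine ⟨law_prob, fun δ => law_integrable _, ?_, ?_⟩
  · rw [law_integral]; norm_num
  · rw [law_integral]; norm_num

lemma expo_le (B : ℝ) (hB : 0 ≤ B) (k : ℝ) : 12 * B * k - 36 * B * k ^ 2 ≤ B := by
  nlinarith [mul_nonneg hB (sq_nonneg (6 * k - 1))]

lemma g_integrable (B : ℝ) (hB : 0 ≤ B) (l : ℕ) :
    Integrable (fun ω : Fin l → ℝ => Real.exp (12 * B * ∑ i, ω i - 36 * B * (∑ i, ω i) ^ 2))
      (Measure.pi fun _ => law) := by
  apply Integrable.of_bound (C := Real.exp B)
  · apply Continuous.aestronglyMeasurable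
    fun_prop
  · apply ae_of_all
    intro ω
    rw [Real.norm_eq_abs, abs_of_pos (Real.exp_pos _)]
    exact Real.exp_le_exp.2 (expo_le B hB _)

lemma g_le_of_ae (B : ℝ) (hB : 0 ≤ B) (l : ℕ) (C : ℝ)
    (h : ∀ ω : Fin l → ℝ, (∀ i, ω i = 3 / 2 ∨ ω i = -2 / 3) →
      12 * B * ∑ i, ω i - 36 * B * (∑ i, ω i) ^ 2 ≤ C) :
    gStar law (12 * B) (36 * B) l ≤ Real.exp C := by
  unfold gStar
  have hae : ∀ᵐ ω ∂(Measure.pi fun _ : Fin l => law), ∀ i, ω i = 3 / 2 ∨ ω i = -2 / 3 := by
    rw [ae_all_iff]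
    intro i
    exact (measurePreserving_eval (fun _ : Fin l => law) i).quasiMeasurePreserving.ae law_ae
  calc _ ≤ ∫ _ω : Fin l → ℝ, Real.exp C ∂(Measure.pi fun _ => law) := by
        apply integral_mono_ae (g_integrable B hB l) (integrable_const _)
        filter_upwards [hae] with ω hω
        exact Real.exp_le_exp.2 (h ω hω)
    _ = _ := by simp

lemma g_zero (B : ℝ) : gStar law (12 * B) (36 * B) 0 = 1 := by
  unfold gStar
  simp

lemma g_pos (B : ℝ) (hB : 0 ≤ B) (l : ℕ) : 0 < gStar law (12 * B) (36 * B) l :=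
  integral_exp_pos (g_integrable B hB l)

lemma g_le (B : ℝ) (hB : 0 ≤ B) (l : ℕ) : gStar law (12 * B) (36 * B) l ≤ Real.exp B :=
  g_le_of_ae B hB l B (fun _ _ => expo_le B hB _)

lemma g_one (B : ℝ) (hB : 0 ≤ B) : gStar law (12 * B) (36 * B) 1 ≤ Real.exp (-B) := by
  apply g_le_of_ae B hB
  intro ω h
  rw [Fin.sum_univ_one]
  rcases h 0 with h0 | h0 <;> rw [h0] <;> nlinarith

lemma g_two (B : ℝ) (hB : 0 ≤ B) : gStar law (12 * B) (36 * B) 2 ≤ Real.exp (-B) := by
  apply g_le_of_ae B hB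
  intro ω h
  rw [Fin.sum_univ_two]
  rcases h 0 with h0 | h0 <;> rcases h 1 with h1 | h1 <;> rw [h0, h1] <;> nlinarith

lemma g_three (B : ℝ) (hB : 0 ≤ B) :
    4 / 13 * (9 / 13) ^ 2 * Real.exp B ≤ gStar law (12 * B) (36 * B) 3 := by
  unfold gStar
  let c : Fin 3 → ℝ := ![3 / 2, -2 / 3, -2 / 3]
  have h1 := setIntegral_le_integral (s := {c}) (g_integrable B hB 3)
    (ae_of_all _ (fun ω => (Real.exp_pos _).le))
  refine le_trans ?_ h1
  rw [integral_singleton]
  have e1 : 12 * B * ∑ i, c i - 36 * B * (∑ i, c i) ^ 2 = B := by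
    rw [Fin.sum_univ_three]
    simp only [c, Matrix.cons_val_zero, Matrix.cons_val_one, Matrix.cons_val]
    ring
  rw [e1, smul_eq_mul]
  apply mul_le_mul_of_nonneg_right _ (Real.exp_pos _).le
  have a1 : law {3 / 2} = ENNReal.ofReal (4 / 13) := by
    simp only [law, Measure.coe_add, Measure.coe_smul, Pi.add_apply, Pi.smul_apply, smul_eq_mul]
    rw [Measure.dirac_apply_of_mem (Set.mem_singleton _), Measure.dirac_apply,
      Set.indicator_of_notMem (by norm_num)]
    simp
  have a2 : law {-2 / 3} = ENNReal.ofReal (9 / 13) := by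
    simp only [law, Measure.coe_add, Measure.coe_smul, Pi.add_apply, Pi.smul_apply, smul_eq_mul]
    rw [Measure.dirac_apply_of_mem (Set.mem_singleton _), Measure.dirac_apply,
      Set.indicator_of_notMem (by norm_num)]
    simp
  rw [Measure.real, ← Set.univ_pi_singleton, Measure.pi_pi, Fin.prod_univ_three]
  simp only [c, Matrix.cons_val_zero, Matrix.cons_val_one, Matrix.cons_val]
  rw [a1, a2, ENNReal.toReal_mul, ENNReal.toReal_mul, ENNReal.toReal_ofReal (by norm_num),
    ENNReal.toReal_ofReal (by norm_num)]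
  norm_num

lemma cubic_le_exp (ρ : ℝ) (hρ : 0 ≤ ρ) : 404 / 100 * ρ ^ 3 / 6 ≤ 99 / 100 * (Real.exp ρ - 1) := by
  have h := Real.sum_le_exp_of_nonneg hρ 9
  simp only [Finset.sum_range_succ, Finset.sum_range_zero, Nat.factorial] at h
  norm_num at h
  have hs := sq_nonneg (ρ - 14 / 5)
  nlinarith [mul_nonneg (pow_nonneg hρ 1) hs, mul_nonneg (pow_nonneg hρ 2) hs,
    mul_nonneg (pow_nonneg hρ 3) hs, mul_nonneg (pow_nonneg hρ 4) hs,
    mul_nonneg (pow_nonneg hρ 5) hs, mul_nonneg (pow_nonneg hρ 6) hs, sq_nonneg ρ]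

lemma meanfield (h : ℕ → ℝ) (h0 : h 0 ≤ 1) (h3 : h 3 ≤ 404 / 100 + 1 / 100)
    (hi : ∀ i, i ≠ 0 → i ≠ 3 → h i ≤ 1 / 100) (N : ℕ) (ρ : ℝ) (hρ : 0 ≤ ρ) :
    ∑ i ∈ range N, h i * ρ ^ i / i.factorial ≤ Real.exp ρ := by
  have h1 : ∀ i ∈ range N, h i * ρ ^ i / i.factorial ≤ 1 / 100 * (ρ ^ i / i.factorial) +
      ((if i = 0 then 99 / 100 else 0) + if i = 3 then 404 / 100 * ρ ^ 3 / 6 else 0) := by
    intro i _
    by_cases a0 : i = 0
    · subst a0; simp; linarith
    by_cases a3 : i = 3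
    · subst a3
      have : 0 ≤ ρ ^ 3 := by positivity
      simp [Nat.factorial]
      nlinarith
    · simp only [a0, a3, if_false, add_zero]
      rw [mul_div_assoc]
      exact mul_le_mul_of_nonneg_right (hi i a0 a3) (by positivity)
  refine (Finset.sum_le_sum h1).trans ?_
  rw [Finset.sum_add_distrib, Finset.sum_add_distrib, ← Finset.mul_sum, Finset.sum_ite_eq',
    Finset.sum_ite_eq']
  have h2 := Real.sum_le_exp_of_nonneg hρ N
  have h4 := cubic_le_exp ρ hρ
  have : 0 ≤ ρ ^ 3 := by positivity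
  split_ifs <;> linarith

end Pool.Agent.MP_de3d19_pr.H76
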