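import Mathlib
import Pool.Agent.MP_de3d19_pr.H76.Fold1

set_option autoImplicit false
set_option linter.unusedSectionVars false

namespace Pool.Agent.MP_de3d19_pr.H76

open Finset Equiv Filter Topology

def sgn (b : Bool) : ℤ := if b then 1 else -1

def posList : ℤ → List Bool → List ℤ
  | _, [] => []
  | s, b :: l => (s + sgn b) :: posList (s + sgn b) l

def disp : List Bool → ℤ
  | [] => 0
  | b :: l => sgn b + disp l

lemma disp_append (l₁ l₂ : List Bool) : disp (l₁ ++ l₂) = disp l₁ + disp l₂ := by
  induction l₁ with
  | nil => simp [disp]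
  | cons b l ih => simp [disp, ih, add_assoc]

lemma posList_append (s : ℤ) (l₁ l₂ : List Bool) :
    posList s (l₁ ++ l₂) = posList s l₁ ++ posList (s + disp l₁) l₂ := by
  induction l₁ generalizing s with
  | nil => simp [disp, posList]
  | cons b l ih => simp [disp, posList, ih, add_assoc]

lemma end_mem_posList (s : ℤ) (l : List Bool) (hl : l ≠ []) : s + disp l ∈ posList s l := by
  induction l generalizing s with
  | nil => exact absurd rfl hl
  | cons b l ih =>
    by_cases h : l = []
    · subst h; simp [posList, disp]
    · have := ih (s + sgn b) h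
      simp only [posList, disp, List.mem_cons]
      right
      rwa [add_assoc] at this

lemma pos_zero {d n : ℕ} (w : Fin (n + 1) → Fin d × Bool) : pos w 0 = step (w 0) := by
  unfold pos
  have : Iic (0 : Fin (n + 1)) = {0} := by ext k; simp
  rw [this, Finset.sum_singleton]

lemma pos_succ' {d n : ℕ} (w : Fin (n + 1) → Fin d × Bool) (i : Fin n) :
    pos w i.succ = step (w 0) + pos (fun j => w j.succ) i := by
  unfold pos
  have e1 : Iic i.succ = univ.filter (· ≤ i.succ) := by ext k; simp
  have e2 : Iic i = univ.filter (· ≤ i) := by ext k; simp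
  rw [e1, e2, Finset.sum_filter, Finset.sum_filter, Fin.sum_univ_succ]
  simp [Fin.succ_le_succ_iff]

lemma step_one (s : Fin 1 × Bool) : step s 0 = sgn s.2 := by
  obtain ⟨i, b⟩ := s
  have : i = 0 := Subsingleton.elim _ _
  subst this
  simp [step, sgn]

lemma card_eq_count (n : ℕ) (w : Fin n → Fin 1 × Bool) (s x : ℤ) :
    (univ.filter (fun i => s + pos w i 0 = x)).card =
      (posList s (List.ofFn (fun i => (w i).2))).count x := by
  induction n generalizing s with
  | zero => simp [posList]
  | succ n ih =>
    rw [List.ofFn_succ, posList, List.count_cons, ← ih (fun j => w j.succ),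
      Fin.card_filter_univ_succ', pos_zero, step_one, add_comm]
    congr 1
    · congr 1
      apply Finset.filter_congr
      intro i _
      simp only [pos_succ', Pi.add_apply, step_one, add_assoc]
    · simp only [beq_iff_eq]

lemma localTime_eq_count (n : ℕ) (w : Fin n → Fin 1 × Bool) (x : Fin 1 → ℤ) :
    localTime w x = (posList 0 (List.ofFn (fun i => (w i).2))).count (x 0) := by
  rw [← card_eq_count]
  unfold localTime
  congr 1
  apply Finset.filter_congr
  intro i _
  rw [zero_add]
  constructor
  · intro h; rw [h]
  · intro h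
    funext k
    have : k = 0 := Subsingleton.elim _ _
    subst this
    exact h

/-- the family of walks crossing every edge three times -/
def fam : List Bool → List Bool × List Bool
  | [] => ([true], [false, true])
  | true :: bs => ((fam bs).1 ++ (fam bs).2 ++ [true], [false, true])
  | false :: bs => ((fam bs).1 ++ [true], false :: ((fam bs).2 ++ [true]))

def prof (M : ℕ) (x : ℤ) : ℕ :=
  if x = 0 then 1 else if 1 ≤ x ∧ x ≤ M then 3 else if x = M + 1 then 2 else 0

lemma fam_inv (bs : List Bool) :
    disp (fam bs).1 = bs.length + 1 ∧ disp (fam bs).2 = 0 ∧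
    (fam bs).1.length + (fam bs).2.length = 3 * (bs.length + 1) ∧ 2 ≤ (fam bs).2.length ∧
    (∀ x, (posList 0 (fam bs).1).count x + (posList (bs.length + 1) (fam bs).2).count x =
      prof bs.length x) ∧
    (posList 0 (fam bs).1).count ((bs.length : ℤ) + 1) = 1 := by
  induction bs with
  | nil =>
    refine ⟨rfl, rfl, rfl, le_refl _, ?_, rfl⟩
    intro x
    simp only [fam, posList, sgn, prof, List.count_cons, List.count_nil, beq_iff_eq, List.length_nil]
    simp only [if_true, Bool.false_eq_true, if_false]
    split_ifs <;> omega
  | cons b bs ih =>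
    obtain ⟨h1, h2, h3, h4, h5, h6⟩ := ih
    have h7 := h5 ((bs.length : ℤ) + 1 + 1)
    have h8 : prof bs.length ((bs.length : ℤ) + 1 + 1) = 0 := by
      unfold prof; split_ifs <;> omega
    rw [h8] at h7
    cases b
    · refine ⟨?_, ?_, ?_, ?_, ?_, ?_⟩
      · simp [fam, disp_append, disp, sgn, h1]
      · simp [fam, disp_append, disp, sgn, h2]
      · simp only [fam, List.length_append, List.length_cons, List.length_nil]; omega
      · simp only [fam, List.length_append, List.length_cons, List.length_nil]; omega
      · intro x
        have := h5 x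
        simp only [fam, posList_append, posList, h1, h2, sgn, List.count_append, List.count_cons,
          List.count_nil, beq_iff_eq, List.length_cons, if_true, Bool.false_eq_true, if_false]
        push_cast
        rw [show (bs.length : ℤ) + 1 + 1 + -1 = bs.length + 1 by ring]
        unfold prof at this ⊢
        push_cast
        split_ifs at this ⊢ <;> omega
      · simp only [fam, posList_append, posList, h1, sgn, List.count_append, List.count_cons,
          List.count_nil, beq_iff_eq, List.length_cons, if_true]
        push_cast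
        simp only [zero_add, if_true]
        omega
    · refine ⟨?_, ?_, ?_, ?_, ?_, ?_⟩
      · simp [fam, disp_append, disp, sgn, h1, h2]
      · simp [fam, disp, sgn]
      · simp only [fam, List.length_append, List.length_cons, List.length_nil]; omega
      · simp only [fam, List.length_cons, List.length_nil]; omega
      · intro x
        have := h5 x
        simp only [fam, posList_append, posList, disp_append, h1, h2, sgn, List.count_append,
          List.count_cons, List.count_nil, beq_iff_eq, List.length_cons, if_true,
          Bool.false_eq_true, if_false, zero_add, add_zero]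
        unfold prof at this ⊢
        push_cast
        split_ifs at this ⊢ <;> omega
      · simp only [fam, posList_append, posList, disp_append, h1, h2, sgn, List.count_append,
          List.count_cons, List.count_nil, beq_iff_eq, List.length_cons, if_true, zero_add,
          add_zero]
        push_cast
        simp only [if_true]
        omega

lemma split_aux (p p' r : List Bool) (N : ℤ) (hp : disp p = N) (hp' : disp p' = N)
    (hc : (posList 0 p).count N = 1) (hc' : (posList 0 p').count N = 1) (h : p' = p ++ r) :
    r = [] := by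
  by_contra hr
  subst h
  rw [disp_append] at hp'
  have h1 := end_mem_posList N r hr
  rw [show disp r = 0 by omega, add_zero] at h1
  rw [posList_append, List.count_append, hc, zero_add, hp] at hc'
  have := List.count_pos_iff.2 h1
  omega

lemma fam_inj (bs bs' : List Bool) (hl : bs.length = bs'.length)
    (h : (fam bs).1 ++ (fam bs).2 = (fam bs').1 ++ (fam bs').2) : bs = bs' := by
  induction bs generalizing bs' with
  | nil =>
    exact (List.length_eq_zero_iff.1 hl.symm).symm
  | cons b bs ih =>
    rcases bs' with _ | ⟨b', bs'⟩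
    · simp at hl
    · obtain ⟨h1, -, -, -, -, h6⟩ := fam_inv (b :: bs)
      obtain ⟨h1', -, -, -, -, h6'⟩ := fam_inv (b' :: bs')
      rw [← hl] at h1' h6'
      have hp : (fam (b :: bs)).1 = (fam (b' :: bs')).1 := by
        rcases List.append_eq_append_iff.1 h with ⟨r, hr, -⟩ | ⟨r, hr, -⟩
        · rw [hr, split_aux _ _ r _ h1 h1' h6 h6' hr, List.append_nil]
        · rw [hr, split_aux _ _ r _ h1' h1 h6' h6 hr, List.append_nil]
      rw [hp] at h
      have he := List.append_cancel_left h
      have hl' : bs.length = bs'.length := by simpa using hl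
      have k := (fam_inv bs).2.2.2.1
      have k' := (fam_inv bs').2.2.2.1
      cases b <;> cases b' <;> simp only [fam] at hp he
      · have e1 := List.append_cancel_right hp
        have e2 := List.append_cancel_right (List.cons.inj he).2
        rw [ih bs' hl' (by rw [e1, e2])]
      · have := congrArg List.length he
        simp only [List.length_cons, List.length_append, List.length_nil] at this
        omega
      · have := congrArg List.length he
        simp only [List.length_cons, List.length_append, List.length_nil] at this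
        omega
      · rw [ih bs' hl' (List.append_cancel_right hp)]

lemma finprod_prof (g : ℕ → ℝ) (g0 : g 0 = 1) (M : ℕ) :
    ∏ᶠ x : Fin 1 → ℤ, g (prof M (x 0)) = g 1 * g 2 * g 3 ^ M := by
  rw [finprod_eq_prod_of_mulSupport_subset (s := (range (M + 2)).image (fun k : ℕ => fun _ => (k : ℤ)))]
  · rw [Finset.prod_image (fun a _ b _ h => by simpa using congrFun h 0),
      Finset.prod_range_succ, Finset.prod_range_succ']
    have e1 : ∀ k ∈ range M, g (prof M ((k + 1 : ℕ) : ℤ)) = g 3 := by
      intro k hk
      rw [mem_range] at hk
      unfold prof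
      rw [if_neg (by omega), if_pos (by omega)]
    have e2 : prof M ((M + 1 : ℕ) : ℤ) = 2 := by
      unfold prof
      rw [if_neg (by omega), if_neg (by omega), if_pos (by omega)]
    have e3 : prof M ((0 : ℕ) : ℤ) = 1 := by simp [prof]
    rw [Finset.prod_congr rfl e1, e2, e3, Finset.prod_const, card_range]
    ring
  · intro x hx
    have h1 : prof M (x 0) ≠ 0 := by
      intro h
      apply hx
      simp only [h, g0]
    have h2 : 0 ≤ x 0 ∧ x 0 ≤ M + 1 := by
      unfold prof at h1
      split_ifs at h1 <;> omega
    simp only [coe_image, coe_range, Set.mem_image, Set.mem_Iio]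
    refine ⟨(x 0).toNat, by omega, ?_⟩
    funext k
    have : k = 0 := Subsingleton.elim _ _
    subst this
    omega

lemma Zg_one_ge (g : ℕ → ℝ) (g0 : g 0 = 1) (hg : ∀ i, 0 ≤ g i) (M : ℕ) :
    g 1 * g 2 / 8 * (g 3 / 4) ^ M ≤ Zg g 1 (3 * (M + 1)) := by
  let L : (Fin M → Bool) → List Bool := fun b => (fam (List.ofFn b)).1 ++ (fam (List.ofFn b)).2
  have hL : ∀ b, (L b).length = 3 * (M + 1) := by
    intro b
    have := (fam_inv (List.ofFn b)).2.2.1
    rw [List.length_ofFn] at this
    simpa [L] using this
  let Φ : (Fin M → Bool) → (Fin (3 * (M + 1)) → Fin 1 × Bool) :=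
    fun b i => (0, (L b).get (i.cast (hL b).symm))
  have hΦ : ∀ b, List.ofFn (fun i => (Φ b i).2) = L b := by
    intro b
    apply List.ext_get
    · rw [List.length_ofFn, hL]
    · intro k h1 h2
      rw [List.get_ofFn]
      rfl
  have hinj : Function.Injective Φ := by
    intro b b' h
    have : L b = L b' := by rw [← hΦ, ← hΦ, h]
    exact List.ofFn_injective (fam_inj _ _ (by simp) this)
  have hval : ∀ b, ∏ᶠ x : Fin 1 → ℤ, g (localTime (Φ b) x) = g 1 * g 2 * g 3 ^ M := by
    intro b
    rw [← finprod_prof g g0 M]
    apply finprod_congr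
    intro x
    rw [localTime_eq_count, hΦ]
    obtain ⟨h1, -, -, -, h5, -⟩ := fam_inv (List.ofFn b)
    simp only [L]
    rw [posList_append, List.count_append, h1, zero_add, h5, List.length_ofFn]
  have hsum : (2 : ℝ) ^ M * (g 1 * g 2 * g 3 ^ M) ≤
      ∑ w : Fin (3 * (M + 1)) → Fin 1 × Bool, ∏ᶠ x : Fin 1 → ℤ, g (localTime w x) := by
    calc _ = ∑ b : Fin M → Bool, ∏ᶠ x : Fin 1 → ℤ, g (localTime (Φ b) x) := by
          simp only [hval]
          simp
      _ = ∑ w ∈ univ.image Φ, ∏ᶠ x : Fin 1 → ℤ, g (localTime w x) :=
          (Finset.sum_image (f := fun w => ∏ᶠ x : Fin 1 → ℤ, g (localTime w x))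
            (fun a _ b _ h => hinj h)).symm
      _ ≤ _ := Finset.sum_le_sum_of_subset_of_nonneg (Finset.subset_univ _)
          (fun w _ _ => finprod_nonneg (fun x => hg _))
  unfold Zg
  rw [le_div_iff₀ (by positivity)]
  refine le_trans (le_of_eq ?_) hsum
  rw [Nat.cast_one, mul_one, pow_mul, pow_succ, div_pow]
  have : ((2 : ℝ) ^ 3) ^ M = 2 ^ M * 4 ^ M := by rw [← mul_pow]; norm_num
  rw [this]
  field_simp
  ring

theorem lower (g : ℕ → ℝ) (g0 : g 0 = 1) (hg : ∀ i, 0 < g i) (η : ℝ) (hη : 0 < η) :
    ∃ᶠ n : ℕ in atTop, Real.log (g 3 / 4) / 3 - η ≤ Real.log (Zg g 1 n) / n := by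
  set K := Real.log (g 1 * g 2 / 8) - Real.log (g 3 / 4) with hK
  have hlim : Tendsto (fun M : ℕ => K / ((3 * (M + 1) : ℕ) : ℝ)) atTop (𝓝 0) := by
    apply tendsto_const_nhds.div_atTop
    apply tendsto_natCast_atTop_atTop.comp
    exact tendsto_atTop_mono (fun M => by simp only [id]; omega) tendsto_id
  have hev : ∀ᶠ M : ℕ in atTop, Real.log (g 3 / 4) / 3 - η ≤
      Real.log (Zg g 1 (3 * (M + 1))) / ((3 * (M + 1) : ℕ) : ℝ) := by
    filter_upwards [hlim.eventually (le_mem_nhds (show -η < 0 by linarith))] with M hM
    have h1 := hg 1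
    have h2 := hg 2
    have h3 := hg 3
    have hl := Real.log_le_log (by positivity) (Zg_one_ge g g0 (fun i => (hg i).le) M)
    rw [Real.log_mul (by positivity) (by positivity), Real.log_pow] at hl
    have hx : (0 : ℝ) < ((3 * (M + 1) : ℕ) : ℝ) := by positivity
    rw [le_div_iff₀ hx] at hM ⊢
    push_cast at hM ⊢
    nlinarith
  rw [Filter.frequently_atTop]
  intro a
  obtain ⟨b, hb⟩ := Filter.eventually_atTop.1 hev
  exact ⟨3 * (max a b + 1), by have := le_max_left a b; omega, hb _ (le_max_right a b)⟩

end Pool.Agent.MP_de3d19_pr.H76
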