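import Mathlib
import Pool.Agent.MP_de3d19_pr.H76.Fold2

set_option autoImplicit false
set_option linter.unusedSectionVars false

namespace Pool.Agent.MP_de3d19_pr.H76

open Finset Equiv Filter Topology

lemma jensen_trick {A : Type*} [Fintype A] [Nonempty A] (X : A → ℝ) (Xb : ℝ)
    (h : ∑ a, X a ≤ Fintype.card A * Xb) :
    (Fintype.card A : ℝ) ≤ Real.exp Xb * ∑ a, Real.exp (-X a) := by
  rw [Finset.mul_sum]
  have h1 : ∀ a, (Xb - X a) + 1 ≤ Real.exp Xb * Real.exp (-X a) := by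
    intro a
    rw [← Real.exp_add, ← sub_eq_add_neg]
    exact Real.add_one_le_exp _
  refine le_trans ?_ (Finset.sum_le_sum (fun a _ => h1 a))
  simp only [Finset.sum_add_distrib, Finset.sum_sub_distrib, Finset.sum_const, card_univ,
    nsmul_eq_mul, mul_one]
  linarith

/-- finite-volume upper bound -/
lemma Zg_le {D q : ℕ} [Fact q.Prime] (hD : 0 < D) (m : ℕ) (hq : 2 * (m + 1) < q)
    (g : ℕ → ℝ) (W t lam θ a0 : ℝ) (g0 : g 0 = 1)
    (hg : ∀ i, 0 ≤ g i) (hgW : ∀ i, g i ≤ W) (ht : 0 < t) (ht1 : t ≤ 1) (hlam : 0 < lam)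
    (hθ : 0 < θ) (hθ1 : θ < 1) (ha0 : 0 < a0)
    (hH : ∀ ρ : ℝ, 0 ≤ ρ → ∑ i ∈ range (m + 1 + 1),
      ((g i + if i = 0 then 0 else t) / lam ^ i) * ρ ^ i / i.factorial ≤ Real.exp ρ) :
    Zg g D (m + 1) ≤ lam ^ (m + 1) * (q / ((1 - θ) / 2) / θ ^ m) * (m + 1) *
      Real.exp (Real.log (W / t) * ((m + 1 : ℕ) ^ 2 / q) +
        Real.exp 1 / (1 - (θ + (1 - θ) / 2)) ^ 2 * (a0 * q + (q / D + 4) / a0)) := by
  have hq0 : (0 : ℝ) < q := by exact_mod_cast (Fact.out : q.Prime).pos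
  have hD0 : (0 : ℝ) < D := by exact_mod_cast hD
  have hW : 1 ≤ W := g0 ▸ hgW 0
  have hWt : 1 ≤ W / t := by rw [le_div_iff₀ ht]; linarith
  have hL : 0 ≤ Real.log (W / t) := Real.log_nonneg hWt
  set L := Real.log (W / t) with hLdef
  set ε := (1 - θ) / 2 with hε
  have hε0 : 0 < ε := by rw [hε]; linarith
  set c := Real.exp 1 / (1 - (θ + ε)) ^ 2 with hc
  have hc0 : 0 ≤ c := by positivity
  let h : ℕ → ℝ := fun i => (g i + if i = 0 then 0 else t) / lam ^ i
  have hh : ∀ i, 0 ≤ h i := by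
    intro i
    have := hg i
    apply div_nonneg _ (by positivity)
    split_ifs <;> linarith
  let N : (Fin D → ZMod q) → ℝ := fun a => ∑ y, ∑ z, Mat θ ε a y z ^ 2
  have hcardA : (Fintype.card (Fin D → ZMod q) : ℝ) = (q : ℝ) ^ D := by
    rw [Fintype.card_fun, ZMod.card, Fintype.card_fin]; push_cast; rfl
  have hqD : (0 : ℝ) < (q : ℝ) ^ D := by positivity
  have hN : ∑ a, N a ≤ (q : ℝ) ^ D * (q / D + 4) := by
    have h1 : ∀ a, N a ≤ 2 * q * (∑ z, (cnt a z : ℝ) ^ 2) / (2 * D) ^ 2 + 2 := fun a =>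
      Mat_sq hD θ ε hθ hθ1.le hε0 (by rw [hε]; linarith) a
    refine (Finset.sum_le_sum (fun a _ => h1 a)).trans ?_
    rw [Finset.sum_add_distrib, ← Finset.sum_div, ← Finset.mul_sum, Finset.sum_const, card_univ,
      nsmul_eq_mul, hcardA]
    have h2 := avg_cnt_sq (D := D) (q := q) (by omega)
    calc _ ≤ 2 * q * ((q : ℝ) ^ D * (2 * D + (2 * D) ^ 2 / q)) / (2 * D) ^ 2 + (q : ℝ) ^ D * 2 := by
          gcongr
      _ = _ := by field_simp; ring
  set Xb := L * (((m + 1 : ℕ) : ℝ) ^ 2 / q) + c * ((q / D + 4) / a0) with hXb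
  -- per-walk bound
  have hw : ∀ w : Fin (m + 1) → Fin D × Bool, (q : ℝ) ^ D * ∏ᶠ x, g (localTime w x) ≤
      Real.exp Xb * ∑ a : Fin D → ZMod q, Real.exp (-(c * (N a / a0))) *
        (lam ^ (m + 1) * ∏ z, h (occ (fold a ∘ pos w) z)) := by
    intro w
    have hj := jensen_trick (fun a : Fin D → ZMod q =>
      L * (pairs (pos w) (fold a) : ℝ) + c * (N a / a0)) Xb (by
        rw [hcardA, Finset.sum_add_distrib, ← Finset.mul_sum, ← Finset.mul_sum, ← Finset.sum_div]
        have h1 := avg_pairs (D := D) hq w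
        calc _ ≤ L * ((q : ℝ) ^ D * (((m + 1 : ℕ) : ℝ) ^ 2 / q)) +
            c * (((q : ℝ) ^ D * (q / D + 4)) / a0) := by gcongr
          _ = _ := by rw [hXb]; ring)
    rw [hcardA] at hj
    have hwt : 0 ≤ ∏ᶠ x, g (localTime w x) := finprod_nonneg (fun x => hg _)
    refine (mul_le_mul_of_nonneg_right hj hwt).trans ?_
    rw [mul_assoc, Finset.sum_mul]
    apply mul_le_mul_of_nonneg_left _ (Real.exp_pos _).le
    apply Finset.sum_le_sum
    intro a _
    have hcol := collision (pos w) (fold a) g W t lam g0 hg hgW ht ht1 hlam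
    rw [neg_add, Real.exp_add, mul_comm (Real.exp _) (Real.exp _), mul_assoc]
    apply mul_le_mul_of_nonneg_left _ (Real.exp_pos _).le
    rw [Real.exp_neg, inv_mul_le_iff₀ (Real.exp_pos _)]
    exact hcol
  -- per-folding bound
  have ha : ∀ a : Fin D → ZMod q, Real.exp (-(c * (N a / a0))) * (lam ^ (m + 1) *
      ((∑ w : Fin (m + 1) → Fin D × Bool, ∏ z, h (occ (fold a ∘ pos w) z)) /
        (2 * D : ℝ) ^ (m + 1))) ≤
      lam ^ (m + 1) * (q / ε / θ ^ m) * (m + 1) * Real.exp (c * (a0 * q)) := by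
    intro a
    have h1 := walk_le (m := m) hD θ ε hθ hε0 a h hh
    have h2 := core (Mat θ ε a) (Mat_symm θ ε a) (Mat_nonneg θ ε hθ hε0 a) (θ + ε)
      (by rw [hε]; linarith) (fun y => (Mat_row hD θ ε a y).le) m h hh hH a0 ha0
    rw [ZMod.card, ← hc, mul_add, Real.exp_add] at h2
    rw [Real.exp_neg, inv_mul_le_iff₀ (Real.exp_pos _)]
    calc _ ≤ lam ^ (m + 1) * ((q / ε / θ ^ m) * ((m + 1) * (Real.exp (c * (a0 * q)) *
          Real.exp (c * (N a / a0))))) := by
          apply mul_le_mul_of_nonneg_left _ (by positivity)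
          exact h1.trans (mul_le_mul_of_nonneg_left h2 (by positivity))
      _ = _ := by ring
  apply le_of_mul_le_mul_left _ hqD
  unfold Zg
  have hDp : (0 : ℝ) < (2 * D : ℝ) ^ (m + 1) := by positivity
  calc _ = (∑ w : Fin (m + 1) → Fin D × Bool, (q : ℝ) ^ D * ∏ᶠ x, g (localTime w x)) /
        (2 * D : ℝ) ^ (m + 1) := by rw [← Finset.mul_sum]; ring
    _ ≤ (∑ w : Fin (m + 1) → Fin D × Bool, Real.exp Xb * ∑ a : Fin D → ZMod q,
        Real.exp (-(c * (N a / a0))) * (lam ^ (m + 1) * ∏ z, h (occ (fold a ∘ pos w) z))) /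
        (2 * D : ℝ) ^ (m + 1) := by
        apply div_le_div_of_nonneg_right _ hDp.le
        exact Finset.sum_le_sum (fun w _ => hw w)
    _ = Real.exp Xb * ∑ a : Fin D → ZMod q, Real.exp (-(c * (N a / a0))) * (lam ^ (m + 1) *
        ((∑ w : Fin (m + 1) → Fin D × Bool, ∏ z, h (occ (fold a ∘ pos w) z)) /
          (2 * D : ℝ) ^ (m + 1))) := by
        rw [← Finset.mul_sum, Finset.sum_comm, mul_div_assoc, Finset.sum_div]
        congr 1
        apply Finset.sum_congr rfl
        intro a _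
        rw [← Finset.mul_sum, ← Finset.mul_sum]
        ring
    _ ≤ Real.exp Xb * ∑ _a : Fin D → ZMod q,
        lam ^ (m + 1) * (q / ε / θ ^ m) * (m + 1) * Real.exp (c * (a0 * q)) :=
        mul_le_mul_of_nonneg_left (Finset.sum_le_sum (fun a _ => ha a)) (Real.exp_pos _).le
    _ = _ := by
        rw [Finset.sum_const, card_univ, nsmul_eq_mul, hcardA]
        have : L * (((m + 1 : ℕ) : ℝ) ^ 2 / q) + c * (a0 * q + (q / D + 4) / a0) =
            Xb + c * (a0 * q) := by rw [hXb]; ring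
        rw [this, Real.exp_add Xb]
        ring

/-- asymptotic upper bound in high dimension -/
theorem upper (g : ℕ → ℝ) (W t lam : ℝ) (g0 : g 0 = 1)
    (hg : ∀ i, 0 < g i) (hgW : ∀ i, g i ≤ W) (ht : 0 < t) (ht1 : t ≤ 1) (hlam : 0 < lam)
    (hH : ∀ N : ℕ, ∀ ρ : ℝ, 0 ≤ ρ → ∑ i ∈ range N,
      ((g i + if i = 0 then 0 else t) / lam ^ i) * ρ ^ i / i.factorial ≤ Real.exp ρ)
    (η : ℝ) (hη : 0 < η) :
    ∃ D : ℕ, 1 ≤ D ∧ ∀ᶠ n : ℕ in atTop, Real.log (Zg g D n) / n ≤ Real.log lam + η := by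
  have hW : 1 ≤ W := g0 ▸ hgW 0
  have hWt : 1 ≤ W / t := by rw [le_div_iff₀ ht]; linarith
  have hL : 0 ≤ Real.log (W / t) := Real.log_nonneg hWt
  set L := Real.log (W / t) with hLdef
  set e := η / 5 with he
  have he0 : 0 < e := by positivity
  set θ := Real.exp (-e) with hθdef
  have hθ : 0 < θ := Real.exp_pos _
  have hθ1 : θ < 1 := Real.exp_lt_one_iff.2 (by linarith)
  set c := Real.exp 1 / (1 - (θ + (1 - θ) / 2)) ^ 2 with hc
  have hc0 : 0 < c := by
    have : 0 < 1 - (θ + (1 - θ) / 2) := by linarith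
    positivity
  obtain ⟨C, hC⟩ := exists_nat_gt (L / e + 2)
  have hC2 : (2 : ℝ) < C := by
    have : 0 ≤ L / e := by positivity
    linarith
  have hC0 : (0 : ℝ) < C := by linarith
  have hCL : L ≤ e * C := by
    have : L / e ≤ C := by linarith
    rw [div_le_iff₀ he0] at this
    linarith
  set a0 := e / (2 * c * C) with ha0def
  have ha0 : 0 < a0 := by positivity
  obtain ⟨D, hD⟩ := exists_nat_gt (2 * c * C / (a0 * e))
  have hD0 : (0 : ℝ) < D := lt_trans (by positivity) hD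
  have hD1 : 0 < D := by exact_mod_cast hD0
  refine ⟨D, hD1, ?_⟩
  set K := Real.log (2 * C / ((1 - θ) / 2)) + c * 4 / a0 with hK
  have hlim : Tendsto (fun n : ℕ => (K + 2 * Real.log n) / n) atTop (𝓝 0) := by
    have h1 : Tendsto (fun n : ℕ => K / (n : ℝ)) atTop (𝓝 0) :=
      tendsto_const_nhds.div_atTop tendsto_natCast_atTop_atTop
    have h2 : Tendsto (fun n : ℕ => Real.log n / (n : ℝ)) atTop (𝓝 0) := by
      have := Real.isLittleO_log_id_atTop.tendsto_div_nhds_zero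
      exact this.comp tendsto_natCast_atTop_atTop
    have h3 := h1.add (h2.const_mul 2)
    simp only [mul_zero, add_zero] at h3
    refine h3.congr (fun n => ?_)
    ring
  filter_upwards [hlim.eventually (ge_mem_nhds he0), eventually_ge_atTop 1] with n hn hn1
  obtain ⟨m, rfl⟩ : ∃ m, n = m + 1 := ⟨n - 1, by omega⟩
  have hCn : C * (m + 1) ≠ 0 := by
    have : 0 < C := by exact_mod_cast hC0
    positivity
  obtain ⟨q, hqp, hq1, hq2⟩ := Nat.exists_prime_lt_and_le_two_mul (C * (m + 1)) hCn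
  have : Fact q.Prime := ⟨hqp⟩
  have hC2' : 2 < C := by exact_mod_cast hC2
  have hZ := Zg_le (D := D) (q := q) hD1 m (by nlinarith) g W t lam θ a0 g0 (fun i => (hg i).le)
    hgW ht ht1 hlam hθ hθ1 ha0 (hH _)
  rw [← hc, ← hLdef] at hZ
  set x : ℝ := ((m + 1 : ℕ) : ℝ) with hx
  have hx' : (m : ℝ) + 1 = x := by rw [hx]; push_cast; rfl
  have hx1 : 1 ≤ x := by rw [← hx']; linarith [Nat.cast_nonneg (α := ℝ) m]
  have hx0 : 0 < x := by linarith
  have hq1' : C * x ≤ q := by rw [hx]; exact_mod_cast hq1.le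
  have hq2' : (q : ℝ) ≤ 2 * (C * x) := by rw [hx]; exact_mod_cast hq2
  have hq0 : (0 : ℝ) < q := lt_of_lt_of_le (by positivity) hq1'
  have hZpos : 0 < Zg g D (m + 1) := by
    unfold Zg
    apply div_pos _ (by positivity)
    apply Finset.sum_pos
    · intro w _
      simp only [localTime_eq_occ]
      rw [finprod_eq _ g g0 _ (Finset.Subset.refl _)]
      exact Finset.prod_pos (fun _ _ => hg _)
    · have : Nonempty (Fin D) := ⟨⟨0, hD1⟩⟩
      exact Finset.univ_nonempty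
  have hε0 : 0 < (1 - θ) / 2 := by linarith
  have hlog := Real.log_le_log hZpos hZ
  rw [hx', Real.log_mul (by positivity) (by positivity), Real.log_mul (by positivity) (by positivity),
    Real.log_mul (by positivity) (by positivity), Real.log_exp, Real.log_pow,
    Real.log_div (by positivity) (by positivity), Real.log_pow, hθdef, Real.log_exp, ← hθdef,
    ← hx] at hlog
  have b1 : Real.log (q / ((1 - θ) / 2)) ≤ Real.log (2 * C / ((1 - θ) / 2)) + Real.log x := by
    rw [← Real.log_mul (by positivity) (by positivity)]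
    apply Real.log_le_log (by positivity)
    rw [div_mul_eq_mul_div]
    apply div_le_div_of_nonneg_right _ hε0.le
    linarith
  have b2 : L * (x ^ 2 / q) ≤ e * x := by
    calc _ ≤ (e * C) * (x ^ 2 / (C * x)) := by gcongr
      _ = _ := by field_simp
  have b3 : c * (a0 * q) ≤ e * x := by
    calc _ ≤ c * (a0 * (2 * (C * x))) := by gcongr
      _ = _ := by rw [ha0def]; field_simp
  have b4 : c * (q / D / a0) ≤ e * x := by
    rw [div_lt_iff₀ (by positivity)] at hD
    calc _ ≤ c * (2 * (C * x) / D / a0) := by gcongr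
      _ = (2 * c * C) * x / (D * a0) := by field_simp
      _ ≤ (D * (a0 * e)) * x / (D * a0) := by gcongr
      _ = _ := by field_simp
  have b5 : (m : ℝ) * e ≤ e * x := by rw [← hx']; nlinarith
  rw [div_le_iff₀ hx0] at hn ⊢
  have e5 : c * (a0 * q + (q / D + 4) / a0) = c * (a0 * q) + c * (q / D / a0) + c * 4 / a0 := by
    ring
  rw [e5] at hlog
  have e6 : η = 5 * e := by rw [he]; ring
  rw [e6]
  nlinarith

end Pool.Agent.MP_de3d19_pr.H76
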